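import Pool.Agent.N717.MS.LineB
import Pool.Agent.W64.GM.Ang2

/-!
# Project MS, part MS1: exponential sums with the phases `k arg z - l log N z`

Part 3: comparison with the integral over the disc. (helper717, for helper912)
-/

set_option autoImplicit false

namespace Pool.Agent.N717.MS

open Finset MeasureTheory
open Pool.Agent.W78.GM
open Pool.Agent.W64.GM (uv measurable_uv norm_uv norm_uv_le uv_mul zpow_lip uv_lip fl norm_sub_fl
  comp sum_inv)
open Pool.Agent.H376R2.MR (ch)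
open GaussianInt (toComplex)

lemma hh_uv (κ : ℤ × ℤ) (w : ℂ) : hh κ w = (uv w) ^ κ.1 * ch κ.2 (Real.log (‖w‖ ^ 2)) := rfl

lemma measurable_hh (κ : ℤ × ℤ) : Measurable (hh κ) := by
  have h1 : Measurable fun w : ℂ => (uv w) ^ κ.1 := measurable_uv.pow_const κ.1
  have h2 : Measurable fun w : ℂ => ch κ.2 (Real.log (‖w‖ ^ 2)) := by
    unfold ch
    fun_prop
  exact h1.mul h2

lemma ch_lip (l : ℤ) (x y : ℝ) : ‖ch l x - ch l y‖ ≤ |(l : ℝ)| * |x - y| := by
  have h1 : ch l x = ch l y * ch l (x - y) := by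
    rw [← ch_add]
    congr 1
    ring
  have h2 : ch l x - ch l y = ch l y * (ch l (x - y) - 1) := by rw [h1]; ring
  rw [h2, norm_mul, norm_ch, one_mul]
  have h3 : ch l (x - y) = Complex.exp (Complex.I * ((-(l * (x - y)) : ℝ) : ℂ)) := by
    unfold ch
    congr 1
    push_cast
    ring
  rw [h3]
  refine (Real.norm_exp_I_mul_ofReal_sub_one_le).trans ?_
  rw [Real.norm_eq_abs, abs_neg, abs_mul]

lemma log_lip {a b : ℝ} (ha : 0 < a) (hb : 0 < b) (hab : a / 2 ≤ b) :
    |Real.log b - Real.log a| ≤ 2 * |b - a| / a := by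
  rcases le_total a b with h | h
  · have h1 : Real.log b - Real.log a ≤ (b - a) / a := by
      rw [← Real.log_div hb.ne' ha.ne']
      have := Real.log_le_sub_one_of_pos (div_pos hb ha)
      rw [sub_div, div_self ha.ne']
      exact this
    have h2 : 0 ≤ Real.log b - Real.log a := sub_nonneg.mpr (Real.log_le_log ha h)
    rw [abs_of_nonneg h2, abs_of_nonneg (sub_nonneg.mpr h)]
    refine h1.trans ?_
    apply div_le_div_of_nonneg_right _ ha.le
    linarith
  · have h1 : Real.log a - Real.log b ≤ (a - b) / b := by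
      rw [← Real.log_div ha.ne' hb.ne']
      have := Real.log_le_sub_one_of_pos (div_pos ha hb)
      rw [sub_div, div_self hb.ne']
      exact this
    have h2 : 0 ≤ Real.log a - Real.log b := sub_nonneg.mpr (Real.log_le_log hb h)
    rw [abs_sub_comm, abs_of_nonneg h2, abs_sub_comm, abs_of_nonneg (sub_nonneg.mpr h)]
    refine h1.trans ?_
    rw [div_le_div_iff₀ hb ha]
    have h3 : 0 ≤ a - b := sub_nonneg.mpr h
    nlinarith

lemma hh_lip (κ : ℤ × ℤ) (w : ℂ) (hw : fl w ≠ 0) :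
    ‖hh κ w - hh κ (toComplex (fl w))‖ ≤ (8 + 8 * sz κ) / Real.sqrt (nm (fl w)) := by
  have hz : toComplex (fl w) ≠ 0 := toComplex_ne_zero hw
  have hw0 : w ≠ 0 := by
    rintro rfl
    apply hw
    apply Zsqrtd.ext
    · simp [fl]
    · simp [fl]
  rw [← norm_toComplex]
  set z : ℂ := toComplex (fl w) with hzdef
  have hz' : 0 < ‖z‖ := norm_pos_iff.2 hz
  have hd : ‖w - z‖ ≤ 2 := norm_sub_fl w
  have hsz := sz_nonneg κ
  rcases le_or_gt ‖z‖ 4 with h4 | h4
  · have h1 : ‖hh κ w - hh κ z‖ ≤ 2 := by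
      refine (norm_sub_le _ _).trans ?_
      have h2 := norm_hh_le κ w
      have h3 := norm_hh_le κ z
      linarith
    refine h1.trans ?_
    rw [le_div_iff₀ hz']
    nlinarith
  · have hwn : ‖z‖ / 2 ≤ ‖w‖ := by
      have := norm_sub_norm_le z w
      rw [norm_sub_rev] at this
      linarith
    have hwp : 0 < ‖w‖ := norm_pos_iff.2 hw0
    have h1 : hh κ w - hh κ z = ((uv w) ^ κ.1 - (uv z) ^ κ.1) * ch κ.2 (Real.log (‖w‖ ^ 2)) +
        (uv z) ^ κ.1 * (ch κ.2 (Real.log (‖w‖ ^ 2)) - ch κ.2 (Real.log (‖z‖ ^ 2))) := by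
      rw [hh_uv, hh_uv]
      ring
    rw [h1]
    refine (norm_add_le _ _).trans ?_
    rw [norm_mul, norm_mul, norm_ch, mul_one, norm_zpow, norm_uv hz, one_zpow, one_mul]
    have h2 : ‖(uv w) ^ κ.1 - (uv z) ^ κ.1‖ ≤ |(κ.1 : ℝ)| * (4 / ‖z‖) := by
      refine (zpow_lip _ _ (norm_uv hw0) (norm_uv hz) κ.1).trans ?_
      refine mul_le_mul_of_nonneg_left ((uv_lip hz w hw0).trans ?_) (abs_nonneg _)
      apply div_le_div_of_nonneg_right _ hz'.le
      linarith
    have h3 : ‖ch κ.2 (Real.log (‖w‖ ^ 2)) - ch κ.2 (Real.log (‖z‖ ^ 2))‖ ≤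
        |(κ.2 : ℝ)| * (8 / ‖z‖) := by
      refine (ch_lip _ _ _).trans ?_
      refine mul_le_mul_of_nonneg_left ?_ (abs_nonneg _)
      rw [Real.log_pow, Real.log_pow, ← mul_sub, abs_mul]
      have h5 := log_lip hz' hwp hwn
      have h6 : |‖w‖ - ‖z‖| ≤ 2 := (abs_norm_sub_norm_le w z).trans hd
      have h7 : 2 * |‖w‖ - ‖z‖| / ‖z‖ ≤ 4 / ‖z‖ := by
        apply div_le_div_of_nonneg_right _ hz'.le
        linarith
      have h8 : |((2 : ℕ) : ℝ)| = 2 := by norm_num
      rw [h8]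
      calc 2 * |Real.log ‖w‖ - Real.log ‖z‖| ≤ 2 * (4 / ‖z‖) := by linarith
        _ = 8 / ‖z‖ := by ring
    have h9 : (8 + 8 * sz κ) / ‖z‖ = 8 / ‖z‖ + |(κ.1 : ℝ)| * (8 / ‖z‖) +
        |(κ.2 : ℝ)| * (8 / ‖z‖) := by
      unfold sz
      ring
    rw [h9]
    have h10 : (0 : ℝ) ≤ 8 / ‖z‖ := by positivity
    have h11 : |(κ.1 : ℝ)| * (4 / ‖z‖) ≤ |(κ.1 : ℝ)| * (8 / ‖z‖) := by
      apply mul_le_mul_of_nonneg_left _ (abs_nonneg _)
      apply div_le_div_of_nonneg_right _ hz'.le
      norm_num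
    linarith

/-- comparison with the integral -/
lemma comp_hh (κ : ℤ × ℤ) (X : ℝ) (hX : 1 ≤ X) :
    ‖∑ z ∈ ball X, HH κ z - ∫ w in Metric.closedBall (0 : ℂ) (Real.sqrt X), hh κ w‖ ≤
      (160 + 96 * sz κ) * Real.sqrt X := by
  have h := comp (hh κ) (measurable_hh κ) (norm_hh_le κ) (8 + 8 * sz κ)
    (by have := sz_nonneg κ; linarith) (hh_lip κ) X hX
  refine h.trans ?_
  have h1 := sum_inv X hX
  have h2 : 20 * Real.pi ≤ 64 := by linarith [Real.pi_lt_d2]
  have h3 := sz_nonneg κ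
  have h4 := Real.sqrt_nonneg X
  have h5 : (8 + 8 * sz κ) * ∑ z ∈ ball X, 1 / Real.sqrt (nm z) ≤
      (8 + 8 * sz κ) * (12 * Real.sqrt X) := mul_le_mul_of_nonneg_left h1 (by linarith)
  have h6 : 20 * Real.pi * Real.sqrt X ≤ 64 * Real.sqrt X := mul_le_mul_of_nonneg_right h2 h4
  linarith

/-- the integral over the disc vanishes -/
theorem int_disc_hh (κ : ℤ × ℤ) (hk : κ.1 ≠ 0) (R : ℝ) :
    ∫ w in Metric.closedBall (0 : ℂ) R, hh κ w = 0 := by
  have hD : MeasurableSet (Metric.closedBall (0 : ℂ) R) := Metric.isClosed_closedBall.measurableSet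
  set I : ℂ := ∫ w in Metric.closedBall (0 : ℂ) R, hh κ w with hI
  -- the rotation
  set c : Circle := Circle.exp (Real.pi / κ.1) with hc
  have hck : ((c : ℂ)) ^ κ.1 = -1 := by
    rw [hc, Circle.coe_exp, ← Complex.exp_int_mul]
    have : (κ.1 : ℂ) * (((Real.pi / κ.1 : ℝ) : ℂ) * Complex.I) = Real.pi * Complex.I := by
      push_cast
      have : (κ.1 : ℂ) ≠ 0 := by exact_mod_cast hk
      field_simp
    rw [this, Complex.exp_pi_mul_I]
  have hc0 : (c : ℂ) ≠ 0 := Circle.coe_ne_zero c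
  have hhc : hh κ (c : ℂ) = -1 := by
    unfold hh ch
    rw [Circle.norm_coe, Complex.ofReal_one, div_one, hck]
    simp
  have hmp : MeasurePreserving (rotation c) (volume : Measure ℂ) volume :=
    (rotation c).measurePreserving
  have h1 := hmp.integral_comp (rotation c).toHomeomorph.measurableEmbedding
    (fun w => (Metric.closedBall (0 : ℂ) R).indicator (fun w => hh κ w) w)
  have h2 : ∀ w : ℂ, (Metric.closedBall (0 : ℂ) R).indicator (fun w => hh κ w) (rotation c w) =
      -((Metric.closedBall (0 : ℂ) R).indicator (fun w => hh κ w) w) := by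
    intro w
    rw [rotation_apply]
    have hn : ‖(c : ℂ) * w‖ = ‖w‖ := by rw [norm_mul, Circle.norm_coe, one_mul]
    by_cases hw : w ∈ Metric.closedBall (0 : ℂ) R
    · have hw2 : (c : ℂ) * w ∈ Metric.closedBall (0 : ℂ) R := by
        rw [Metric.mem_closedBall, dist_zero_right] at hw ⊢
        rwa [hn]
      rw [Set.indicator_of_mem hw, Set.indicator_of_mem hw2]
      by_cases hw0 : w = 0
      · subst hw0
        have h3 : hh κ 0 = 0 := by
          unfold hh
          rw [zero_div, zero_zpow κ.1 hk, zero_mul]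
        rw [mul_zero, h3, neg_zero]
      · rw [hh_mul κ hc0 hw0, hhc]
        ring
    · have hw2 : (c : ℂ) * w ∉ Metric.closedBall (0 : ℂ) R := by
        rw [Metric.mem_closedBall, dist_zero_right] at hw ⊢
        rwa [hn]
      rw [Set.indicator_of_notMem hw, Set.indicator_of_notMem hw2, neg_zero]
  have h3 : (∫ w, (Metric.closedBall (0 : ℂ) R).indicator (fun w => hh κ w) (rotation c w)) = -I := by
    rw [hI, ← integral_indicator hD, ← integral_neg]
    exact integral_congr_ae (Filter.Eventually.of_forall h2)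
  have h4 : (∫ w, (Metric.closedBall (0 : ℂ) R).indicator (fun w => hh κ w) w) = I := by
    rw [hI, integral_indicator hD]
  rw [h4] at h1
  have h5 : -I = I := by rw [← h3]; exact h1
  have h6 : (2 : ℂ) * I = 0 := by
    linear_combination -h5
  simpa using h6

lemma volume_ball_one : volume.real (Metric.ball (0 : ℂ) 1) = Real.pi := by
  rw [Measure.real, Complex.volume_ball]
  simp

/-- the integral over the disc, radial frequencies -/
theorem int_disc_zero (l : ℤ) {X : ℝ} (hX : 0 < X) :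
    ∫ w in Metric.closedBall (0 : ℂ) (Real.sqrt X), hh (0, l) w =
      (Real.pi : ℂ) * (X : ℂ) ^ (1 - l * Complex.I) / (1 - l * Complex.I) := by
  classical
  have hD : MeasurableSet (Metric.closedBall (0 : ℂ) (Real.sqrt X)) :=
    Metric.isClosed_closedBall.measurableSet
  set R : ℝ := Real.sqrt X with hR
  have hR0 : 0 < R := Real.sqrt_pos.2 hX
  rw [← integral_indicator hD]
  have h1 : ∀ w : ℂ, (Metric.closedBall (0 : ℂ) R).indicator (fun w => hh (0, l) w) w =
      (fun r : ℝ => if r ≤ R then ch l (Real.log (r ^ 2)) else 0) ‖w‖ := by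
    intro w
    by_cases hw : w ∈ Metric.closedBall (0 : ℂ) R
    · rw [Set.indicator_of_mem hw]
      rw [Metric.mem_closedBall, dist_zero_right] at hw
      show hh (0, l) w = if ‖w‖ ≤ R then ch l (Real.log (‖w‖ ^ 2)) else 0
      rw [if_pos hw]
      unfold hh
      rw [zpow_zero, one_mul]
    · rw [Set.indicator_of_notMem hw]
      rw [Metric.mem_closedBall, dist_zero_right] at hw
      show 0 = if ‖w‖ ≤ R then ch l (Real.log (‖w‖ ^ 2)) else 0
      rw [if_neg hw]
  have h0 := integral_fun_norm_addHaar (volume : Measure ℂ)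
    (fun r : ℝ => if r ≤ R then ch l (Real.log (r ^ 2)) else 0)
  rw [Complex.finrank_real_complex, volume_ball_one] at h0
  rw [integral_congr_ae (Filter.Eventually.of_forall h1)]
  refine h0.trans ?_
  have hs : (1 - 2 * l * Complex.I : ℂ) + 1 = 2 * (1 - l * Complex.I) := by ring
  have hne : (1 - l * Complex.I : ℂ) ≠ 0 := by
    intro h
    have := congrArg Complex.re h
    simp at this
  have h2 : ∫ y in Set.Ioi (0 : ℝ), y ^ (2 - 1) • (if y ≤ R then ch l (Real.log (y ^ 2)) else 0) =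
      ∫ y in (0 : ℝ)..R, (y : ℂ) ^ (1 - 2 * l * Complex.I : ℂ) := by
    rw [intervalIntegral.integral_of_le hR0.le]
    rw [← integral_indicator measurableSet_Ioi, ← integral_indicator measurableSet_Ioc]
    refine integral_congr_ae (Filter.Eventually.of_forall fun y => ?_)
    by_cases hy : y ∈ Set.Ioc (0 : ℝ) R
    · have hy0 : y ∈ Set.Ioi (0 : ℝ) := hy.1
      rw [Set.indicator_of_mem hy, Set.indicator_of_mem hy0, if_pos hy.2]
      have hy' : (y : ℂ) ≠ 0 := by exact_mod_cast hy.1.ne'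
      rw [Complex.cpow_sub _ _ hy', Complex.cpow_one, Complex.cpow_def_of_ne_zero hy']
      unfold ch
      rw [Real.log_pow, ← Complex.ofReal_log hy.1.le]
      rw [div_eq_mul_inv, ← Complex.exp_neg, Complex.real_smul]
      have e1 : ((y ^ (2 - 1) : ℝ) : ℂ) = (y : ℂ) := by norm_num
      rw [e1]
      congr 2
      push_cast
      ring
    · rw [Set.indicator_of_notMem hy]
      by_cases hy0 : y ∈ Set.Ioi (0 : ℝ)
      · rw [Set.indicator_of_mem hy0, if_neg (fun h => hy ⟨hy0, h⟩), smul_zero]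
      · rw [Set.indicator_of_notMem hy0]
  rw [h2, integral_cpow (Or.inl (by simp))]
  rw [hs]
  have h3 : ((0 : ℝ) : ℂ) ^ (2 * (1 - l * Complex.I) : ℂ) = 0 := by
    rw [Complex.ofReal_zero, Complex.zero_cpow (mul_ne_zero two_ne_zero hne)]
  have h4 : (R : ℂ) ^ (2 * (1 - l * Complex.I) : ℂ) = (X : ℂ) ^ (1 - l * Complex.I : ℂ) := by
    have hXR : (X : ℂ) = ((R ^ 2 : ℝ) : ℂ) := by rw [hR, Real.sq_sqrt hX.le]
    have hRC : (R : ℂ) ≠ 0 := by exact_mod_cast hR0.ne'
    have hR2 : ((R ^ 2 : ℝ) : ℂ) ≠ 0 := by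
      push_cast
      exact pow_ne_zero 2 hRC
    rw [hXR, Complex.cpow_def_of_ne_zero hRC, Complex.cpow_def_of_ne_zero hR2,
      ← Complex.ofReal_log hR0.le, ← Complex.ofReal_log (by positivity), Real.log_pow]
    congr 1
    push_cast
    ring
  rw [h3, h4, sub_zero, Complex.real_smul]
  rw [nsmul_eq_mul]
  field_simp
  push_cast
  ring

end Pool.Agent.N717.MS
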