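import Pool.Agent.N717.MS.Vdc
import Pool.Agent.N717.MS.Small
import Pool.Agent.N912.MS.Stm
import Pool.Agent.W78.GA.Basic

/-!
# Project MS, part MS1: exponential sums with the phases `k arg z - l log N z`

Part 4: the main theorem. (helper717, for helper912)
-/

set_option autoImplicit false

namespace Pool.Agent.N717.MS

open Finset MeasureTheory
open Pool.Agent.W78.GM
open Pool.Agent.H376R2.MR (ch)
open Pool.Agent.W540.GM (card_ball_le)
open GaussianInt (toComplex)

lemma hh_conj (k l : ℤ) {w : ℂ} (hw : w ≠ 0) :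
    hh (k, l) ((starRingEnd ℂ) w) = hh (-k, l) w := by
  have hn : ((‖w‖ : ℝ) : ℂ) ≠ 0 := by
    have := norm_ne_zero_iff.2 hw
    exact_mod_cast this
  have h1 : (w / ((‖w‖ : ℝ) : ℂ)) * ((starRingEnd ℂ) w / ((‖w‖ : ℝ) : ℂ)) = 1 := by
    rw [div_mul_div_comm, Complex.mul_conj, Complex.normSq_eq_norm_sq]
    push_cast
    rw [← sq]
    exact div_self (pow_ne_zero 2 hn)
  have h2 : (starRingEnd ℂ) w / ((‖w‖ : ℝ) : ℂ) = (w / ((‖w‖ : ℝ) : ℂ))⁻¹ :=
    eq_inv_of_mul_eq_one_right h1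
  unfold hh
  dsimp only
  rw [Complex.norm_conj, h2, inv_zpow, zpow_neg]

lemma sum_conj (k l : ℤ) (X : ℝ) :
    ∑ z ∈ ball X, HH (k, l) z = ∑ z ∈ ball X, HH (-k, l) z := by
  refine Finset.sum_nbij' star star ?_ ?_ ?_ ?_ ?_
  · intro z hz
    rw [mem_ball] at hz ⊢
    rwa [nm_star]
  · intro z hz
    rw [mem_ball] at hz ⊢
    rwa [nm_star]
  · intro z _
    exact star_star z
  · intro z _
    exact star_star z
  · intro z hz
    rw [mem_ball] at hz
    have hz0 : toComplex z ≠ 0 := toComplex_ne_zero (one_le_nm.1 hz.1)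
    unfold HH
    rw [GaussianInt.toComplex_star, hh_conj (-k) l hz0, neg_neg]

/-- large frequencies -/
lemma big (M : ℕ) : ∃ η : ℝ, 0 < η ∧ η ≤ 1 / 2 ∧ ∃ C : ℝ, 0 < C ∧ ∀ (X : ℝ) (κ : ℤ × ℤ),
    1 ≤ X → 0 < sz κ → sz κ ≤ X ^ M →
      ‖∑ z ∈ ball X, HH κ z‖ ≤ C * (X ^ (1 - η) + X / sz κ) := by
  obtain ⟨η, hη, hη1, C, hC, h⟩ := vdc1 M
  refine ⟨η, hη, hη1, C, hC, ?_⟩
  intro X κ hX hk0 hkM
  rcases le_or_gt (κ.1 * κ.2) 0 with hs | hs
  · exact h X κ hs hX hk0 hkM
  · have e : sz (-κ.1, κ.2) = sz κ := by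
      unfold sz
      push_cast
      rw [abs_neg]
    have h1 := h X (-κ.1, κ.2) (by
      show -κ.1 * κ.2 ≤ 0
      rw [neg_mul]
      linarith) hX (by rw [e]; exact hk0) (by rw [e]; exact hkM)
    rw [e, ← sum_conj] at h1
    exact h1

/-- from `ℤ[i]` to the quadratic algebra -/
lemma transfer (κ : ℤ × ℤ) (X : ℝ) :
    ∑ z ∈ Pool.Agent.W78.GA.ball 0 1 X, Pool.Agent.N912.MS.chi κ z = ∑ z ∈ ball X, HH κ z := by
  have hD : ((0 : ℤ)) ^ 2 < 4 * 1 := by norm_num
  have hnm : ∀ z : Pool.Agent.W78.GA.Qd 0 1,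
      Pool.Agent.W78.GA.nm z = nm (⟨z.re, z.im⟩ : GaussianInt) := by
    intro z
    unfold Pool.Agent.W78.GA.nm nm
    congr 1
    ring
  refine Finset.sum_nbij' (fun z : Pool.Agent.W78.GA.Qd 0 1 => (⟨z.re, z.im⟩ : GaussianInt))
    (fun z : GaussianInt => (⟨z.re, z.im⟩ : Pool.Agent.W78.GA.Qd 0 1)) ?_ ?_ ?_ ?_ ?_
  · intro z hz
    rw [Pool.Agent.W78.GA.mem_ball hD] at hz
    rw [mem_ball, ← hnm]
    exact hz
  · intro z hz
    rw [mem_ball] at hz
    rw [Pool.Agent.W78.GA.mem_ball hD, hnm]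
    exact hz
  · intro z _
    rfl
  · intro z _
    rfl
  · intro z hz
    have htc : Pool.Agent.W78.GA.tc z = toComplex (⟨z.re, z.im⟩ : GaussianInt) := by
      apply Complex.ext
      · rw [Pool.Agent.W78.GA.tc_re, toC_re]
        push_cast
        ring
      · rw [Pool.Agent.W78.GA.tc_im, toC_im]
        have h4 : Real.sqrt (4 * ((1 : ℤ) : ℝ) - ((0 : ℤ) : ℝ) ^ 2) = 2 := by
          rw [show (4 * ((1 : ℤ) : ℝ) - ((0 : ℤ) : ℝ) ^ 2) = 2 ^ 2 by norm_num]
          exact Real.sqrt_sq (by norm_num)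
        rw [h4]
        ring
    unfold Pool.Agent.N912.MS.chi HH hh Pool.Agent.W78.GA.ps
    rw [Pool.Agent.W78.GA.nm_eq_norm_sq hD, htc]

/-- **(MS1) exponential sums over balls** -/
theorem exp2 : Pool.Agent.N912.MS.S_EXP2 := by
  intro M
  obtain ⟨η, hη, hη1, C, hC, hbig⟩ := big (M + 1)
  set e : ℝ := min η (1 / 4) with he
  have he0 : 0 < e := by rw [he]; positivity
  have heη : e ≤ η := min_le_left _ _
  have he4 : e ≤ 1 / 4 := min_le_right _ _
  refine ⟨e, he0, by linarith, 2 * C + 300, by positivity, ?_⟩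
  intro X κ hX hκ
  have hX0 : 0 < X := by linarith
  have hpos : 0 < X ^ (1 - e) := Real.rpow_pos_of_pos hX0 _
  have h34 : X ^ (3 / 4 : ℝ) ≤ X ^ (1 - e) :=
    Real.rpow_le_rpow_of_exponent_le hX (by linarith)
  have h14 : 1 ≤ X ^ (1 / 4 : ℝ) := Real.one_le_rpow hX (by norm_num)
  have hdiv : X / X ^ (1 / 4 : ℝ) = X ^ (3 / 4 : ℝ) := by
    rw [div_eq_iff (by positivity), ← Real.rpow_add hX0]
    norm_num
  have hn0 := sz_nonneg κ
  -- large frequencies
  have hlarge : X ^ (1 / 4 : ℝ) ≤ sz κ → ‖∑ z ∈ ball X, HH κ z‖ ≤ (2 * C + 18) * X ^ (1 - e) := by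
    intro hn
    have hn1 : 0 < sz κ := by linarith
    rcases lt_or_ge X 2 with hX2 | hX2
    · have h1 := sum_ball_leH hX0.le κ
      have h2 : X ≤ 2 * X ^ (1 - e) := by
        have h3 : X = X ^ e * X ^ (1 - e) := by
          rw [← Real.rpow_add hX0]
          norm_num
        have h4 : X ^ e ≤ 2 := by
          calc X ^ e ≤ X ^ (1 : ℝ) := Real.rpow_le_rpow_of_exponent_le hX (by linarith)
            _ = X := Real.rpow_one X
            _ ≤ 2 := hX2.le
        calc X = X ^ e * X ^ (1 - e) := h3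
          _ ≤ 2 * X ^ (1 - e) := mul_le_mul_of_nonneg_right h4 hpos.le
      have h5 : 0 ≤ C * X ^ (1 - e) := by positivity
      calc ‖∑ z ∈ ball X, HH κ z‖ ≤ 9 * X := h1
        _ ≤ 18 * X ^ (1 - e) := by linarith
        _ ≤ (2 * C + 18) * X ^ (1 - e) := by nlinarith
    · have habs : ∀ k : ℤ, |(k : ℝ)| ≤ (k : ℝ) ^ 2 := by
        intro k
        have h1 : |k| ≤ k ^ 2 := by
          rcases eq_or_ne k 0 with rfl | hk
          · simp
          · have h2 := Int.one_le_abs hk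
            rw [← sq_abs]
            nlinarith
        exact_mod_cast h1
      have hszM : sz κ ≤ X ^ (M + 1) := by
        have h1 : ((κ.1 : ℝ)) ^ 2 ≤ X ^ M := by
          refine le_trans ?_ hκ
          have : κ.1 ^ 2 ≤ Pool.Agent.N912.MS.nrm κ := le_max_left _ _
          exact_mod_cast this
        have h2 : ((κ.2 : ℝ)) ^ 2 ≤ X ^ M := by
          refine le_trans ?_ hκ
          have : κ.2 ^ 2 ≤ Pool.Agent.N912.MS.nrm κ := le_max_right _ _
          exact_mod_cast this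
        have h3 := habs κ.1
        have h4 := habs κ.2
        have h5 : 0 ≤ X ^ M := by positivity
        unfold sz
        rw [pow_succ]
        nlinarith
      have h1 := hbig X κ hX hn1 hszM
      have h2 : X ^ (1 - η) ≤ X ^ (1 - e) :=
        Real.rpow_le_rpow_of_exponent_le hX (by linarith)
      have h3 : X / sz κ ≤ X ^ (1 - e) := by
        calc X / sz κ ≤ X / X ^ (1 / 4 : ℝ) :=
              div_le_div_of_nonneg_left hX0.le (by positivity) hn
          _ = X ^ (3 / 4 : ℝ) := hdiv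
          _ ≤ X ^ (1 - e) := h34
      calc ‖∑ z ∈ ball X, HH κ z‖ ≤ C * (X ^ (1 - η) + X / sz κ) := h1
        _ ≤ C * (X ^ (1 - e) + X ^ (1 - e)) := by gcongr
        _ ≤ (2 * C + 18) * X ^ (1 - e) := by nlinarith
  -- small frequencies
  have hsmall : sz κ < X ^ (1 / 4 : ℝ) →
      ‖∑ z ∈ ball X, HH κ z - ∫ w in Metric.closedBall (0 : ℂ) (Real.sqrt X), hh κ w‖ ≤
        256 * X ^ (1 - e) := by
    intro hn
    refine (comp_hh κ X hX).trans ?_
    have h1 : 160 + 96 * sz κ ≤ 256 * X ^ (1 / 4 : ℝ) := by linarith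
    calc (160 + 96 * sz κ) * Real.sqrt X ≤ (256 * X ^ (1 / 4 : ℝ)) * Real.sqrt X :=
          mul_le_mul_of_nonneg_right h1 (Real.sqrt_nonneg _)
      _ = 256 * X ^ (3 / 4 : ℝ) := by
          rw [Real.sqrt_eq_rpow, mul_assoc, ← Real.rpow_add hX0]
          norm_num
      _ ≤ 256 * X ^ (1 - e) := by linarith
  rw [transfer]
  constructor
  · intro hk
    rcases le_or_gt (X ^ (1 / 4 : ℝ)) (sz κ) with hn | hn
    · refine (hlarge hn).trans ?_
      exact mul_le_mul_of_nonneg_right (by linarith) hpos.le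
    · have h1 := hsmall hn
      rw [int_disc_hh κ hk, sub_zero] at h1
      refine h1.trans ?_
      exact mul_le_mul_of_nonneg_right (by linarith) hpos.le
  · intro hk
    have hκ' : κ = (0, κ.2) := Prod.ext hk rfl
    rcases le_or_gt (X ^ (1 / 4 : ℝ)) (sz κ) with hn | hn
    · have h1 := hlarge hn
      have h2 : ‖(Real.pi : ℂ) * (X : ℂ) ^ (1 - κ.2 * Complex.I) / (1 - κ.2 * Complex.I)‖ ≤
          4 * X ^ (1 - e) := by
        rw [norm_div, norm_mul, Complex.norm_real, Real.norm_eq_abs, abs_of_pos Real.pi_pos,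
          Complex.norm_cpow_eq_rpow_re_of_pos hX0]
        have e1 : (1 - κ.2 * Complex.I : ℂ).re = 1 := by simp
        have e2 : (1 - κ.2 * Complex.I : ℂ).im = -κ.2 := by simp
        rw [e1, Real.rpow_one]
        have h3 : sz κ ≤ ‖(1 - κ.2 * Complex.I : ℂ)‖ := by
          have h4 := Complex.abs_im_le_norm (1 - κ.2 * Complex.I : ℂ)
          rw [e2, abs_neg] at h4
          unfold sz
          rw [hk]
          simpa using h4
        have hn1 : 0 < sz κ := by linarith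
        calc Real.pi * X / ‖(1 - κ.2 * Complex.I : ℂ)‖ ≤ Real.pi * X / X ^ (1 / 4 : ℝ) :=
              div_le_div_of_nonneg_left (by positivity) (by positivity) (hn.trans h3)
          _ = Real.pi * X ^ (3 / 4 : ℝ) := by rw [mul_div_assoc, hdiv]
          _ ≤ 4 * X ^ (1 - e) := by
              apply mul_le_mul (by linarith [Real.pi_lt_d2]) h34 (by positivity) (by norm_num)
      refine (norm_sub_le _ _).trans ?_
      nlinarith
    · have h1 := hsmall hn
      rw [hκ', int_disc_zero κ.2 hX0, ← hκ'] at h1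
      refine h1.trans ?_
      exact mul_le_mul_of_nonneg_right (by linarith) hpos.le

end Pool.Agent.N717.MS
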