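import Pool.Agent.W540.GM.AngB
import Pool.Agent.H376R2.MR.Defs

/-!
# Project MS, part MS1: exponential sums with the phases `k arg z - l log N z`

Part 1: the sum over a block on a line (port of `W540/GM/AngB`). (helper717, for helper912)
-/

set_option autoImplicit false

namespace Pool.Agent.N717.MS

open Finset Complex
open Pool.Agent.W78.GM
open Pool.Agent.H469R2.NK (e norm_e)
open Pool.Agent.W540.GM (Good unit_zpow_eq im_pow_bounds hasDerivAt_im)
open Pool.Agent.H376R2.MR (ch)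
open GaussianInt (toComplex)

/-- `(w/|w|)^k (|w|^2)^(-il)` -/
noncomputable def hh (κ : ℤ × ℤ) (w : ℂ) : ℂ :=
  (w / ((‖w‖ : ℝ) : ℂ)) ^ κ.1 * ch κ.2 (Real.log (‖w‖ ^ 2))

/-- the size of a frequency -/
noncomputable def sz (κ : ℤ × ℤ) : ℝ := |(κ.1 : ℝ)| + |(κ.2 : ℝ)|

/-- `(w/|w|)^k (|w|^2)^(-il)` for Gaussian integers -/
noncomputable def HH (κ : ℤ × ℤ) (z : GaussianInt) : ℂ := hh κ (toComplex z)

lemma sz_nonneg (κ : ℤ × ℤ) : 0 ≤ sz κ := by
  unfold sz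
  positivity

lemma norm_ch (l : ℤ) (x : ℝ) : ‖ch l x‖ = 1 := by
  unfold ch
  have : (-(l * x : ℝ) * I : ℂ) = ((-(l * x) : ℝ) : ℂ) * I := by push_cast; ring
  rw [this, Complex.norm_exp_ofReal_mul_I]

lemma norm_hh_le (κ : ℤ × ℤ) (w : ℂ) : ‖hh κ w‖ ≤ 1 := by
  unfold hh
  rw [norm_mul, norm_ch, mul_one]
  by_cases hz : w = 0
  · rw [hz]
    by_cases hk : κ.1 = 0
    · rw [hk]; simp
    · simp [zero_zpow κ.1 hk]
  · rw [norm_zpow, norm_div, Complex.norm_real, norm_norm, div_self (norm_ne_zero_iff.2 hz),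
      one_zpow]

lemma norm_HH_le (κ : ℤ × ℤ) (z : GaussianInt) : ‖HH κ z‖ ≤ 1 := norm_hh_le _ _

lemma ch_add (l : ℤ) (x y : ℝ) : ch l (x + y) = ch l x * ch l y := by
  unfold ch
  rw [← Complex.exp_add]
  congr 1
  push_cast
  ring

lemma hh_mul (κ : ℤ × ℤ) {a b : ℂ} (ha : a ≠ 0) (hb : b ≠ 0) :
    hh κ (a * b) = hh κ a * hh κ b := by
  unfold hh
  have h1 : a * b / ((‖a * b‖ : ℝ) : ℂ) =
      (a / ((‖a‖ : ℝ) : ℂ)) * (b / ((‖b‖ : ℝ) : ℂ)) := by
    rw [norm_mul]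
    push_cast
    rw [mul_div_mul_comm]
  have h2 : Real.log (‖a * b‖ ^ 2) = Real.log (‖a‖ ^ 2) + Real.log (‖b‖ ^ 2) := by
    rw [norm_mul, mul_pow, Real.log_mul]
    · exact pow_ne_zero _ (norm_ne_zero_iff.2 ha)
    · exact pow_ne_zero _ (norm_ne_zero_iff.2 hb)
  rw [h1, h2, mul_zpow, ch_add]
  ring

lemma hh_eq (κ : ℤ × ℤ) {w : ℂ} (hw : w ≠ 0) :
    hh κ w = e ((κ.1 * (Complex.log w).im - 2 * κ.2 * (Complex.log w).re) / (2 * Real.pi)) := by
  unfold hh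
  rw [unit_zpow_eq hw]
  unfold ch e
  rw [← Complex.exp_add, Real.log_pow, Complex.log_im, Complex.log_re]
  congr 1
  have hpi : (Real.pi : ℂ) ≠ 0 := by exact_mod_cast Real.pi_ne_zero
  push_cast
  field_simp
  ring

/-- the derivatives of `log (w + (x - J))` -/
noncomputable def phiC (w : ℂ) (J : ℝ) (m : ℕ) (x : ℝ) : ℂ :=
  match m with
  | 0 => Complex.log (w + ((x - J : ℝ) : ℂ))
  | m + 1 => (-1 : ℂ) ^ m * (m.factorial : ℂ) * ((w + ((x - J : ℝ) : ℂ))⁻¹) ^ (m + 1)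

lemma hasDerivAt_phiC (w : ℂ) (J : ℝ) (m : ℕ) (x : ℝ)
    (h : (w + ((x - J : ℝ) : ℂ)) ∈ Complex.slitPlane) :
    HasDerivAt (phiC w J m) (phiC w J (m + 1) x) x := by
  have hd : HasDerivAt (fun y : ℝ => w + ((y - J : ℝ) : ℂ)) 1 x := by
    have h1 : HasDerivAt (fun y : ℝ => ((y - J : ℝ) : ℂ)) ((1 : ℝ) : ℂ) x :=
      ((hasDerivAt_id x).sub_const J).ofReal_comp
    have := h1.const_add w
    simpa using this
  have hne : (w + ((x - J : ℝ) : ℂ)) ≠ 0 := Complex.slitPlane_ne_zero h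
  cases m with
  | zero =>
    have h1 := hd.clog_real h
    have e : phiC w J 1 x = (1 : ℂ) / (w + ((x - J : ℝ) : ℂ)) := by
      simp [phiC]
    rw [e]
    exact h1
  | succ m =>
    have h1 := ((hd.fun_inv hne).fun_pow (m + 1)).const_mul ((-1 : ℂ) ^ m * (m.factorial : ℂ))
    have e : phiC w J (m + 1 + 1) x = (-1 : ℂ) ^ m * (m.factorial : ℂ) *
        (((m + 1 : ℕ) : ℂ) * ((w + ((x - J : ℝ) : ℂ))⁻¹) ^ (m + 1 - 1) *
          (-1 / (w + ((x - J : ℝ) : ℂ)) ^ 2)) := by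
      simp only [phiC]
      rw [Nat.factorial_succ, Nat.add_sub_cancel, pow_succ (-1 : ℂ) m]
      push_cast
      rw [neg_div, one_div, ← inv_pow]
      ring
    rw [e]
    exact h1

/-- the phase `a Im log + 2 b Re log` and its derivatives -/
noncomputable def ff (a b : ℝ) (w : ℂ) (J : ℝ) (m : ℕ) (x : ℝ) : ℝ :=
  (((a : ℂ) + 2 * b * I) * phiC w J m x).im

lemma hasDerivAt_ff (a b : ℝ) (w : ℂ) (J : ℝ) (m : ℕ) (x : ℝ)
    (h : (w + ((x - J : ℝ) : ℂ)) ∈ Complex.slitPlane) :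
    HasDerivAt (ff a b w J m) (ff a b w J (m + 1) x) x :=
  hasDerivAt_im ((hasDerivAt_phiC w J m x h).const_mul _)

lemma line_bound2 (M : ℕ) {x₀ τ₀ : ℝ} (hx₀ : 0 < x₀) (hx₁ : x₀ ≤ 1) (hτ₀ : 0 < τ₀) :
    ∃ η : ℝ, 0 < η ∧ η ≤ 1 ∧ ∃ C : ℝ, 0 < C ∧ ∀ (J L : ℕ) (z₀ u : GaussianInt) (κ : ℤ × ℤ),
      κ.1 * κ.2 ≤ 0 → 1 ≤ J → L ≤ J → u ≠ 0 →
      Good (M + 4) x₀ τ₀ J (toComplex z₀) (toComplex u) →
      7 ≤ sz κ → sz κ ≤ (J : ℝ) ^ M →
      ‖∑ n ∈ range L, HH κ (z₀ + (n : GaussianInt) * u)‖ ≤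
        C * ((J : ℝ) ^ (1 - η) + J / sz κ) := by
  obtain ⟨η, hη, hη1, C, hC, hmain⟩ := Pool.Agent.H221R2.FB.vdc_gen M (x₀ ^ (M + 4) * τ₀)
    ((M + 4).factorial * 2 : ℝ) (by positivity)
  refine ⟨η, hη, hη1, C * 7, by positivity, ?_⟩
  intro J L z₀ u κ hκ hJ hLJ hu hgood hk7 hkM
  have hJ0 : (0 : ℝ) < J := by exact_mod_cast hJ
  have hJC : (J : ℂ) ≠ 0 := by exact_mod_cast hJ0.ne'
  have hu' : toComplex u ≠ 0 := toComplex_ne_zero hu
  set w : ℂ := toComplex z₀ / toComplex u with hw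
  have hpi := Real.pi_pos
  have hn0 : 0 < sz κ := by linarith
  -- the sign
  obtain ⟨s, hs1, hsk, hsl⟩ : ∃ s : ℝ, |s| = 1 ∧ (κ.1 : ℝ) = s * |(κ.1 : ℝ)| ∧
      -(κ.2 : ℝ) = s * |(κ.2 : ℝ)| := by
    rcases mul_nonpos_iff.mp hκ with ⟨h1, h2⟩ | ⟨h1, h2⟩
    · have h1' : (0 : ℝ) ≤ κ.1 := by exact_mod_cast h1
      have h2' : (κ.2 : ℝ) ≤ 0 := by exact_mod_cast h2
      exact ⟨1, by simp, by rw [abs_of_nonneg h1', one_mul], by rw [abs_of_nonpos h2', one_mul]⟩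
    · have h1' : (κ.1 : ℝ) ≤ 0 := by exact_mod_cast h1
      have h2' : (0 : ℝ) ≤ κ.2 := by exact_mod_cast h2
      exact ⟨-1, by simp, by rw [abs_of_nonpos h1']; ring, by rw [abs_of_nonneg h2']; ring⟩
  set a : ℝ := |(κ.1 : ℝ)| / sz κ with ha
  set b : ℝ := |(κ.2 : ℝ)| / sz κ with hb
  have ha0 : 0 ≤ a := by positivity
  have hb0 : 0 ≤ b := by positivity
  have hab : a + b = 1 := by
    rw [ha, hb, ← add_div]
    exact div_self hn0.ne'
  -- the inverse of `w + t`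
  have hinv : ∀ x : ℝ, x ∈ Set.Icc (J : ℝ) (3 * J) → ∃ ξ τ : ℝ,
      (w + ((x - J : ℝ) : ℂ))⁻¹ = (ξ * (1 + τ * I)) / J ∧ x₀ ≤ ξ ∧ ξ ≤ 1 ∧ τ₀ ≤ τ ∧
        ((M + 4 : ℕ) : ℝ) * τ ≤ 1 / 2 := by
    intro x hx
    obtain ⟨ξ, τ, h1, h2, h3, h4, h5⟩ := hgood (x - J) (by linarith [hx.1]) (by linarith [hx.2])
    refine ⟨ξ, τ, ?_, h2, h3, h4, h5⟩
    rw [← h1, hw]
    have h6 : toComplex z₀ / toComplex u + ((x - J : ℝ) : ℂ) =
        (toComplex z₀ + ((x - J : ℝ) : ℂ) * toComplex u) / toComplex u := by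
      field_simp
    rw [h6, inv_div]
    push_cast
    field_simp
  have hslit : ∀ x : ℝ, x ∈ Set.Icc (J : ℝ) (3 * J) →
      (w + ((x - J : ℝ) : ℂ)) ∈ Complex.slitPlane := by
    intro x hx
    obtain ⟨ξ, τ, h1, h2, h3, h4, h5⟩ := hinv x hx
    left
    have h6 : 0 < ((w + ((x - J : ℝ) : ℂ))⁻¹).re := by
      rw [h1]
      have : (((ξ : ℂ) * (1 + τ * I)) / J).re = ξ / J := by
        rw [show ((J : ℂ)) = ((J : ℝ) : ℂ) by push_cast; rfl, Complex.div_ofReal_re]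
        simp
      rw [this]
      exact div_pos (by linarith) hJ0
    rw [Complex.inv_re] at h6
    have h7 : (0 : ℝ) ≤ normSq (w + ((x - J : ℝ) : ℂ)) := normSq_nonneg _
    by_contra hcon
    push Not at hcon
    have := div_nonpos_of_nonpos_of_nonneg hcon h7
    linarith
  have hmem : ∀ n ∈ range L, ((J : ℝ) + n) ∈ Set.Icc (J : ℝ) (3 * J) := by
    intro n hn
    have h1 : (n : ℝ) ≤ J := by exact_mod_cast ((mem_range.1 hn).le.trans hLJ)
    have h2 : (0 : ℝ) ≤ n := Nat.cast_nonneg n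
    constructor <;> linarith
  -- rewrite the sum
  have hsum : ∑ n ∈ range L, HH κ (z₀ + (n : GaussianInt) * u) =
      HH κ u * ∑ n ∈ range L, e ((s * sz κ / (2 * Real.pi)) * ff a b w J 0 ((J : ℝ) + n)) := by
    rw [mul_sum]
    refine sum_congr rfl fun n hn => ?_
    have h1 : (w + (((J : ℝ) + n - J : ℝ) : ℂ)) = w + n := by
      push_cast; ring
    have h2 : w + (n : ℂ) ≠ 0 := by
      rw [← h1]
      exact Complex.slitPlane_ne_zero (hslit _ (hmem n hn))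
    have h3 : toComplex (z₀ + (n : GaussianInt) * u) = toComplex u * (w + n) := by
      rw [map_add, map_mul, map_natCast, hw]
      field_simp
    unfold HH
    rw [h3, hh_mul κ hu' h2, hh_eq κ h2]
    congr 2
    have h4 : ff a b w J 0 ((J : ℝ) + n) =
        a * (Complex.log (w + n)).im + 2 * b * (Complex.log (w + n)).re := by
      unfold ff
      simp only [phiC]
      rw [h1]
      simp [Complex.mul_im]
    rw [h4, hsk]
    have h5 : s * sz κ / (2 * Real.pi) * (a * (Complex.log (w + n)).im +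
        2 * b * (Complex.log (w + n)).re) =
        (s * (sz κ * a) * (Complex.log (w + n)).im +
          2 * (s * (sz κ * b)) * (Complex.log (w + n)).re) / (2 * Real.pi) := by
      ring
    have h6 : sz κ * a = |(κ.1 : ℝ)| := by rw [ha]; field_simp
    have h7 : sz κ * b = |(κ.2 : ℝ)| := by rw [hb]; field_simp
    rw [h5, h6, h7, ← hsl]
    have h8 : s * |(κ.1 : ℝ)| = κ.1 := hsk.symm
    rw [h8]
    ring
  rw [hsum, norm_mul]
  have h7 : (2 * Real.pi) ≤ 7 := by linarith [Real.pi_lt_d2]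
  have hξabs : |s * sz κ / (2 * Real.pi)| = sz κ / (2 * Real.pi) := by
    rw [abs_div, abs_mul, hs1, one_mul, abs_of_pos hn0, abs_of_pos (by positivity : 0 < 2 * Real.pi)]
  have key := hmain J L J (s * sz κ / (2 * Real.pi)) (ff a b w J) hJ le_rfl hLJ
    (by have : (L : ℝ) ≤ J := by exact_mod_cast hLJ
        linarith)
    (fun m _ x hx => hasDerivAt_ff a b w J m x (hslit x hx)) (by
      intro m hm1 hmT x hx
      obtain ⟨ξ, τ, h1, h2, h3, h4, h5⟩ := hinv x hx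
      obtain ⟨m, rfl⟩ : ∃ m', m = m' + 1 := ⟨m - 1, by omega⟩
      have hval : (-1 : ℝ) ^ (m + 1 + 1) * ff a b w J (m + 1) x * (J : ℝ) ^ (m + 1) =
          (m.factorial : ℝ) * ξ ^ (m + 1) * (a * ((1 + τ * I : ℂ) ^ (m + 1)).im +
            2 * b * ((1 + τ * I : ℂ) ^ (m + 1)).re) := by
        have h8 : ff a b w J (m + 1) x =
            (-1 : ℝ) ^ m * (m.factorial : ℝ) * (ξ / J) ^ (m + 1) *
              (a * ((1 + τ * I : ℂ) ^ (m + 1)).im + 2 * b * ((1 + τ * I : ℂ) ^ (m + 1)).re) := by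
          unfold ff
          simp only [phiC]
          rw [h1]
          have h9 : ((a : ℂ) + 2 * b * I) * ((-1 : ℂ) ^ m * (m.factorial : ℂ) *
              ((ξ * (1 + τ * I)) / (J : ℂ)) ^ (m + 1)) =
              (((-1 : ℝ) ^ m * (m.factorial : ℝ) * (ξ / J) ^ (m + 1) : ℝ) : ℂ) *
              (((a : ℂ) + 2 * b * I) * (1 + τ * I : ℂ) ^ (m + 1)) := by
            push_cast
            rw [div_pow, mul_pow, div_pow]
            ring
          rw [h9, Complex.im_ofReal_mul]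
          congr 1
          have h10 : ((a : ℂ) + 2 * b * I) = ⟨a, 2 * b⟩ := by
            apply Complex.ext <;> simp
          rw [h10, Complex.mul_im]
        rw [h8]
        have hsgn : (-1 : ℝ) ^ (m + 1 + 1) * (-1 : ℝ) ^ m = 1 := by
          rw [← pow_add, show m + 1 + 1 + m = 2 * (m + 1) by ring, pow_mul]
          norm_num
        have h10 : (ξ / J) ^ (m + 1) * (J : ℝ) ^ (m + 1) = ξ ^ (m + 1) := by
          rw [← mul_pow, div_mul_cancel₀ _ hJ0.ne']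
        calc (-1 : ℝ) ^ (m + 1 + 1) * ((-1 : ℝ) ^ m * (m.factorial : ℝ) * (ξ / J) ^ (m + 1) *
              (a * ((1 + τ * I : ℂ) ^ (m + 1)).im + 2 * b * ((1 + τ * I : ℂ) ^ (m + 1)).re)) *
                (J : ℝ) ^ (m + 1)
            = ((-1 : ℝ) ^ (m + 1 + 1) * (-1 : ℝ) ^ m) * (m.factorial : ℝ) *
              ((ξ / J) ^ (m + 1) * (J : ℝ) ^ (m + 1)) *
              (a * ((1 + τ * I : ℂ) ^ (m + 1)).im + 2 * b * ((1 + τ * I : ℂ) ^ (m + 1)).re) := by
              ring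
          _ = _ := by rw [hsgn, h10, one_mul]
      rw [hval]
      have hτ : 0 < τ := by linarith
      have hξ : 0 < ξ := by linarith
      obtain ⟨⟨hr1, hr2⟩, hb1, hb2⟩ := im_pow_bounds (M + 4) τ hτ h5 (m + 1) (by omega) hmT
      set A : ℝ := ((1 + τ * I : ℂ) ^ (m + 1)).re with hA
      set B : ℝ := ((1 + τ * I : ℂ) ^ (m + 1)).im with hB
      have hf1 : (1 : ℝ) ≤ m.factorial := by exact_mod_cast Nat.factorial_pos m
      have h12 : ((m + 1 : ℕ) : ℝ) * τ ≤ 1 / 2 := by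
        have : ((m + 1 : ℕ) : ℝ) ≤ ((M + 4 : ℕ) : ℝ) := by exact_mod_cast hmT
        nlinarith
      have h12' : τ ≤ 1 / 2 := by
        have : (1 : ℝ) ≤ ((m + 1 : ℕ) : ℝ) := by push_cast; linarith [Nat.cast_nonneg (α := ℝ) m]
        nlinarith
      have hA1 : 3 / 4 ≤ A := by
        have h13 : ((m + 1 : ℕ) : ℝ) ^ 2 * τ ^ 2 ≤ 1 / 4 := by
          have h14 : 0 ≤ ((m + 1 : ℕ) : ℝ) * τ := by positivity
          nlinarith
        linarith
      have hlow : τ ≤ a * B + 2 * b * A := by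
        have e1 : a * τ ≤ a * B := mul_le_mul_of_nonneg_left hb1 ha0
        have e2 : b * τ ≤ b * (2 * A) := mul_le_mul_of_nonneg_left (by linarith) hb0
        have e3 : a * τ + b * τ = τ := by rw [← add_mul, hab, one_mul]
        linarith
      have hB1 : B ≤ 1 := by linarith
      have hup : a * B + 2 * b * A ≤ 2 := by
        have e1 : a * B ≤ a * 1 := mul_le_mul_of_nonneg_left hB1 ha0
        have e2 : b * (2 * A) ≤ b * (2 * 1) := mul_le_mul_of_nonneg_left (by linarith) hb0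
        linarith
      constructor
      · have h11 : x₀ ^ (M + 4) ≤ ξ ^ (m + 1) :=
          (pow_le_pow_of_le_one hx₀.le hx₁ hmT).trans (pow_le_pow_left₀ hx₀.le h2 _)
        calc x₀ ^ (M + 4) * τ₀ ≤ ξ ^ (m + 1) * τ := by gcongr
          _ ≤ (m.factorial : ℝ) * ξ ^ (m + 1) * τ := by
              have : 0 ≤ ξ ^ (m + 1) * τ := by positivity
              nlinarith
          _ ≤ _ := by gcongr
      · have h13 : (m.factorial : ℝ) ≤ ((M + 4).factorial : ℝ) := by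
          exact_mod_cast Nat.factorial_le (by omega)
        have h14 : ξ ^ (m + 1) ≤ 1 := pow_le_one₀ hξ.le h3
        calc (m.factorial : ℝ) * ξ ^ (m + 1) * (a * B + 2 * b * A)
            ≤ (m.factorial : ℝ) * ξ ^ (m + 1) * 2 := by
              gcongr
          _ ≤ (m.factorial : ℝ) * 1 * 2 := by gcongr
          _ ≤ _ := by linarith)
    (by rw [hξabs, le_div_iff₀ (by positivity)]; linarith)
    (by
      rw [hξabs]
      refine le_trans ?_ hkM
      apply div_le_self hn0.le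
      linarith [Real.pi_gt_three])
  refine (mul_le_mul (norm_HH_le κ u) key (norm_nonneg _) zero_le_one).trans ?_
  rw [one_mul, hξabs]
  have h15 : (J : ℝ) / (sz κ / (2 * Real.pi)) ≤ 7 * (J / sz κ) := by
    rw [div_div_eq_mul_div, ← mul_div_assoc]
    apply div_le_div_of_nonneg_right _ hn0.le
    nlinarith
  have h16 : (0 : ℝ) ≤ (J : ℝ) ^ (1 - η) := by positivity
  calc C * ((J : ℝ) ^ (1 - η) + J / (sz κ / (2 * Real.pi)))
      ≤ C * (7 * (J : ℝ) ^ (1 - η) + 7 * (J / sz κ)) := by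
        gcongr
        linarith
    _ = _ := by ring

end Pool.Agent.N717.MS
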