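import Pool.Agent.N682.MS.Stm
import Pool.Agent.W661.RC.Stm3
import Pool.Agent.N303.KQ.FG

/-!
# Project MS (helper682), part R2: commuting with the smaller group implies commuting with the
larger group (helper717)
-/

set_option autoImplicit false

namespace Pool.Agent.N717.MS

open Matrix Filter Topology
open scoped Matrix.Norms.L2Operator
open Pool.Agent.W661.RC (HasT Mk Mt hs en hs_mul_le_op hs_mul_le_op' norm_one_le')
open Pool.Agent.W683.RC
open Pool.Agent.W637.RC.PTD (rp rp_vc rf rf_sub uni vle norm_vc_eq)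
open Pool.Agent.N682.MS

noncomputable section

variable {d k : ℕ}

/-! ### norms -/

lemma nrm_mul (a x : Mt d) : ‖vc (a * x)‖ ≤ ‖a‖ * ‖vc x‖ := by
  have h := hs_mul_le_op a x
  rw [hs_eq_norm, hs_eq_norm, ← mul_pow] at h
  exact le_of_sq_le_sq h (by positivity)

lemma nrm_mul' (a x : Mt d) : ‖vc (x * a)‖ ≤ ‖a‖ * ‖vc x‖ := by
  have h := hs_mul_le_op' a x
  rw [hs_eq_norm, hs_eq_norm, ← mul_pow] at h
  exact le_of_sq_le_sq h (by positivity)

lemma nrm_uni (V : Matrix.unitaryGroup (Fin d) ℂ) : ‖(V : Mt d)‖ ≤ 1 := by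
  have h := CStarRing.norm_coe_unitary_mul V (1 : Mt d)
  rw [mul_one] at h
  rw [h]
  exact norm_one_le' d

lemma nrm_umul (V : Matrix.unitaryGroup (Fin d) ℂ) (x : Mt d) : ‖vc ((V : Mt d) * x)‖ = ‖vc x‖ :=
  norm_vc_eq (hs_unit_mul (uni V) x)

lemma nrm_mulu (V : Matrix.unitaryGroup (Fin d) ℂ) (x : Mt d) : ‖vc (x * (V : Mt d))‖ = ‖vc x‖ :=
  norm_vc_eq (hs_mul_unit (uni V) x)

/-- the size of the commutator -/
def cm (a x : Mt d) : ℝ := ‖vc (a * x - x * a)‖

lemma cm_nonneg (a x : Mt d) : 0 ≤ cm a x := norm_nonneg _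

lemma cm_sq (a x : Mt d) : cm a x ^ 2 = hs (a * x - x * a) := (hs_eq_norm _).symm

lemma cm_le (a b x : Mt d) : cm a x ≤ cm b x + 2 * ‖a - b‖ * ‖vc x‖ := by
  have h : a * x - x * a = (b * x - x * b) + ((a - b) * x - x * (a - b)) := by noncomm_ring
  unfold cm
  rw [h, vc_add]
  refine (norm_add_le _ _).trans ?_
  have h1 : ‖vc ((a - b) * x - x * (a - b))‖ ≤ ‖a - b‖ * ‖vc x‖ + ‖a - b‖ * ‖vc x‖ := by
    rw [vc_sub]
    exact (norm_sub_le _ _).trans (add_le_add (nrm_mul _ _) (nrm_mul' _ _))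
  linarith

lemma cm_mul (V W : Matrix.unitaryGroup (Fin d) ℂ) (x : Mt d) :
    cm ((V * W : Matrix.unitaryGroup (Fin d) ℂ) : Mt d) x ≤ cm (V : Mt d) x + cm (W : Mt d) x := by
  unfold cm
  have h : ((V * W : Matrix.unitaryGroup (Fin d) ℂ) : Mt d) * x -
      x * ((V * W : Matrix.unitaryGroup (Fin d) ℂ) : Mt d) =
      (V : Mt d) * ((W : Mt d) * x - x * (W : Mt d)) +
        ((V : Mt d) * x - x * (V : Mt d)) * (W : Mt d) := by
    rw [Submonoid.coe_mul]
    noncomm_ring
  rw [h, vc_add]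
  refine (norm_add_le _ _).trans ?_
  rw [nrm_umul, nrm_mulu, add_comm]

lemma cm_inv (V : Matrix.unitaryGroup (Fin d) ℂ) (x : Mt d) :
    cm ((V⁻¹ : Matrix.unitaryGroup (Fin d) ℂ) : Mt d) x = cm (V : Mt d) x := by
  unfold cm
  have h1 : ((V⁻¹ : Matrix.unitaryGroup (Fin d) ℂ) : Mt d) * (V : Mt d) = 1 := by
    rw [← Submonoid.coe_mul, inv_mul_cancel]; rfl
  have h2 : (V : Mt d) * ((V⁻¹ : Matrix.unitaryGroup (Fin d) ℂ) : Mt d) = 1 := by
    rw [← Submonoid.coe_mul, mul_inv_cancel]; rfl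
  have h : (V : Mt d) * (((V⁻¹ : Matrix.unitaryGroup (Fin d) ℂ) : Mt d) * x -
      x * ((V⁻¹ : Matrix.unitaryGroup (Fin d) ℂ) : Mt d)) * (V : Mt d) =
      -((V : Mt d) * x - x * (V : Mt d)) := by
    have h3 : (V : Mt d) * (((V⁻¹ : Matrix.unitaryGroup (Fin d) ℂ) : Mt d) * x -
        x * ((V⁻¹ : Matrix.unitaryGroup (Fin d) ℂ) : Mt d)) * (V : Mt d) =
        ((V : Mt d) * ((V⁻¹ : Matrix.unitaryGroup (Fin d) ℂ) : Mt d)) * x * (V : Mt d) -
          (V : Mt d) * x * (((V⁻¹ : Matrix.unitaryGroup (Fin d) ℂ) : Mt d) * (V : Mt d)) := by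
      noncomm_ring
    rw [h3, h1, h2]
    noncomm_ring
  rw [← nrm_umul V, ← nrm_mulu V, h, vc_neg, norm_neg]

/-- displacement by words -/
lemma word (w : FreeGroup (Fin k)) : ∃ L : ℝ, 0 ≤ L ∧ ∀ (d : ℕ)
    (U : Fin k → Matrix.unitaryGroup (Fin d) ℂ) (x : Mt d),
    cm ((FreeGroup.lift U w : Matrix.unitaryGroup (Fin d) ℂ) : Mt d) x ≤
      L * √(en (fun s => (U s : Mt d)) x) := by
  induction w using FreeGroup.induction_on with
  | C1 =>
    refine ⟨0, le_refl _, fun d U x => ?_⟩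
    rw [map_one, zero_mul]
    unfold cm
    rw [OneMemClass.coe_one, one_mul, mul_one, sub_self, vc_zero, norm_zero]
  | of s =>
    refine ⟨1, zero_le_one, fun d U x => ?_⟩
    rw [FreeGroup.lift_apply_of, one_mul]
    refine Real.le_sqrt_of_sq_le ?_
    rw [cm_sq]
    exact Finset.single_le_sum (f := fun s => hs ((U s : Mt d) * x - x * (U s : Mt d)))
      (fun s _ => hs_nonneg _) (Finset.mem_univ s)
  | inv_of s ih =>
    obtain ⟨L, hL, h⟩ := ih
    refine ⟨L, hL, fun d U x => ?_⟩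
    rw [map_inv, cm_inv]
    exact h d U x
  | mul v w ihv ihw =>
    obtain ⟨L, hL, h⟩ := ihv
    obtain ⟨L', hL', h'⟩ := ihw
    refine ⟨L + L', add_nonneg hL hL', fun d U x => ?_⟩
    rw [map_mul, add_mul]
    exact (cm_mul _ _ _).trans (add_le_add (h d U x) (h' d U x))

/-! ### asymptotic equality -/

section asym

variable {I : Type} {F : Filter I} {dd : I → ℕ}

/-- asymptotic equality in operator norm -/
def AE (F : Filter I) (a b : ∀ i, Mt (dd i)) : Prop := Tendsto (fun i => ‖a i - b i‖) F (𝓝 0)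

lemma AE.rfl' (a : ∀ i, Mt (dd i)) : AE F a a := by
  unfold AE
  simp only [sub_self, norm_zero]
  exact tendsto_const_nhds

lemma AE.symm' {a b : ∀ i, Mt (dd i)} (h : AE F a b) : AE F b a := by
  unfold AE at h ⊢
  simpa only [norm_sub_rev] using h

lemma AE.trans' {a b c : ∀ i, Mt (dd i)} (h : AE F a b) (h' : AE F b c) : AE F a c := by
  unfold AE at h h' ⊢
  refine squeeze_zero (fun i => norm_nonneg _) (fun i => norm_sub_le_norm_sub_add_norm_sub
    (a i) (b i) (c i)) ?_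
  simpa using h.add h'

lemma AE.mul' {a a' b b' : ∀ i, Mt (dd i)} (h : AE F a a') (h' : AE F b b')
    (hb : ∀ i, ‖b i‖ ≤ 1) (ha : ∀ i, ‖a' i‖ ≤ 1) :
    AE F (fun i => a i * b i) (fun i => a' i * b' i) := by
  unfold AE at h h' ⊢
  refine squeeze_zero (fun i => norm_nonneg _) (fun i => ?_) (by simpa using h.add h')
  have h1 : a i * b i - a' i * b' i = (a i - a' i) * b i + a' i * (b i - b' i) := by noncomm_ring
  rw [h1]
  refine (norm_add_le _ _).trans (add_le_add ?_ ?_)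
  · exact (norm_mul_le _ _).trans (mul_le_of_le_one_right (norm_nonneg _) (hb i))
  · exact (norm_mul_le _ _).trans (mul_le_of_le_one_left (norm_nonneg _) (ha i))

lemma AE.star' {a b : ∀ i, Mt (dd i)} (h : AE F a b) :
    AE F (fun i => star (a i)) (fun i => star (b i)) := by
  unfold AE at h ⊢
  refine h.congr fun i => ?_
  rw [← star_sub, norm_star]

variable {G : Type} [Group G] {φ : ∀ i, G → Matrix.unitaryGroup (Fin (dd i)) ℂ}

lemma as_mul (hφ : AsF F dd φ) (g h : G) :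
    AE F (fun i => (φ i (g * h) : Mt (dd i))) (fun i => (φ i g : Mt (dd i)) * (φ i h : Mt (dd i))) :=
  hφ g h

lemma inv_val' (V : Matrix.unitaryGroup (Fin d) ℂ) :
    ((V⁻¹ : Matrix.unitaryGroup (Fin d) ℂ) : Mt d) = star (V : Mt d) := rfl

lemma star_mul_self' (V : Matrix.unitaryGroup (Fin d) ℂ) : star (V : Mt d) * (V : Mt d) = 1 :=
  Unitary.star_mul_self_of_mem V.2

lemma as_one (hφ : AsF F dd φ) : AE F (fun i => (φ i 1 : Mt (dd i))) (fun _ => 1) := by
  have h := as_mul hφ 1 1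
  have h2 := (AE.rfl' (F := F) (fun i => (((φ i 1)⁻¹ : Matrix.unitaryGroup (Fin (dd i)) ℂ) :
    Mt (dd i)))).mul' h (fun i => nrm_uni _) (fun i => nrm_uni _)
  simp only [mul_one] at h2
  refine AE.symm' ?_
  unfold AE at h2 ⊢
  refine h2.congr fun i => ?_
  beta_reduce
  rw [inv_val', ← mul_assoc, star_mul_self', one_mul]

lemma as_inv (hφ : AsF F dd φ) (g : G) :
    AE F (fun i => (φ i g⁻¹ : Mt (dd i))) (fun i => star (φ i g : Mt (dd i))) := by
  have h := (as_mul hφ g g⁻¹).symm'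
  have h3 : AE F (fun i => (φ i g : Mt (dd i)) * (φ i g⁻¹ : Mt (dd i))) (fun _ => 1) := by
    refine h.trans' ?_
    rw [mul_inv_cancel]
    exact as_one hφ
  have h2 := (AE.rfl' (F := F) (fun i => (((φ i g)⁻¹ : Matrix.unitaryGroup (Fin (dd i)) ℂ) :
    Mt (dd i)))).mul' h3 (fun i => ?_) (fun i => nrm_uni _)
  · unfold AE at h2 ⊢
    refine h2.congr fun i => ?_
    beta_reduce
    rw [inv_val', ← mul_assoc, star_mul_self', one_mul, mul_one]
  · rw [← Submonoid.coe_mul]
    exact nrm_uni _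

variable {Γ : Type} [Group Γ]

/-- (F1) -/
lemma as_word (hφ : AsF F dd φ) (ι : Γ →* G) (γ : FreeGroup (Fin k) →* Γ)
    (w : FreeGroup (Fin k)) :
    AE F (fun i => ((FreeGroup.lift (fun s => φ i (ι (γ (FreeGroup.of s)))) w :
      Matrix.unitaryGroup (Fin (dd i)) ℂ) : Mt (dd i)))
      (fun i => (φ i (ι (γ w)) : Mt (dd i))) := by
  induction w using FreeGroup.induction_on with
  | C1 =>
    simp only [map_one, OneMemClass.coe_one]
    exact (as_one hφ).symm'
  | of s =>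
    simp only [FreeGroup.lift_apply_of]
    exact AE.rfl' _
  | inv_of s ih =>
    simp only [map_inv]
    refine AE.trans' ?_ (as_inv hφ _).symm'
    exact ih.star'
  | mul v w ihv ihw =>
    simp only [map_mul]
    refine AE.trans' ?_ (as_mul hφ _ _).symm'
    exact ihv.mul' ihw (fun i => nrm_uni _) (fun i => nrm_uni _)

end asym

/-! ### the representation by conjugation -/

lemma dsp_vc (U : Fin k → Matrix.unitaryGroup (Fin d) ℂ) (x : Mt d) :
    Dsp (cf U) (vc x) = en (fun s => (U s : Mt d)) x := by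
  unfold Dsp en
  refine Finset.sum_congr rfl fun s _ => ?_
  have h := rf_sub U (FreeGroup.of s) x
  rw [FreeGroup.lift_apply_of] at h
  exact h

lemma en_conj_uni (U : Fin k → Matrix.unitaryGroup (Fin d) ℂ) (V : Matrix.unitaryGroup (Fin d) ℂ)
    (x : Mt d) : en (fun s => (U s : Mt d)) ((V : Mt d) * x * (V : Mt d)ᴴ) =
      ∑ s, cm ((V⁻¹ * U s * V : Matrix.unitaryGroup (Fin d) ℂ) : Mt d) x ^ 2 := by
  unfold en
  refine Finset.sum_congr rfl fun s _ => ?_
  rw [cm_sq]
  have h1 : (V : Mt d)ᴴ * (V : Mt d) = 1 := uni V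
  have h2 : (V : Mt d) * (V : Mt d)ᴴ = 1 := unit_symm h1
  have h3 : (U s : Mt d) * ((V : Mt d) * x * (V : Mt d)ᴴ) -
      ((V : Mt d) * x * (V : Mt d)ᴴ) * (U s : Mt d) =
      (V : Mt d) * (((V : Mt d)ᴴ * (U s : Mt d) * (V : Mt d)) * x -
        x * ((V : Mt d)ᴴ * (U s : Mt d) * (V : Mt d))) * (V : Mt d)ᴴ := by
    have h4 : (V : Mt d) * (((V : Mt d)ᴴ * (U s : Mt d) * (V : Mt d)) * x -
        x * ((V : Mt d)ᴴ * (U s : Mt d) * (V : Mt d))) * (V : Mt d)ᴴ =
        ((V : Mt d) * (V : Mt d)ᴴ) * ((U s : Mt d) * ((V : Mt d) * x * (V : Mt d)ᴴ)) -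
        ((V : Mt d) * x * (V : Mt d)ᴴ) * (U s : Mt d) * ((V : Mt d) * (V : Mt d)ᴴ) := by
      noncomm_ring
    rw [h4, h2]
    noncomm_ring
  rw [h3, hs_mul_unit (unit_conj h1), hs_unit_mul h1]
  rfl

theorem t_r2 (h1 : S_GAPM) (h2 : S_KEY) : S_R2 := by
  intro I F Γ G _ _ hT Φ ι t ht dd φ hφ y hy hcm
  obtain ⟨k, γ, hγ⟩ := Pool.Agent.N303.KQ.exists_free hT
  obtain ⟨κ, hκ, hgap⟩ := h1 Γ k γ hT hγ
  obtain ⟨A, hA, hkey⟩ := h2 k κ hκ
  set u : ∀ i, Fin k → Matrix.unitaryGroup (Fin (dd i)) ℂ :=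
    fun i s => φ i (ι (γ (FreeGroup.of s))) with hu
  have hF1 : ∀ w, AE F (fun i => ((FreeGroup.lift (u i) w :
      Matrix.unitaryGroup (Fin (dd i)) ℂ) : Mt (dd i))) (fun i => (φ i (ι (γ w)) : Mt (dd i))) :=
    as_word hφ ι γ
  set W : ∀ i, Fin k → Matrix.unitaryGroup (Fin (dd i)) ℂ :=
    fun i s => (φ i t)⁻¹ * u i s * φ i t with hW
  -- `W` is close to `φ (ι (Φ ..))`
  have hWP : ∀ s, AE F (fun i => (W i s : Mt (dd i)))
      (fun i => (φ i (ι (Φ (γ (FreeGroup.of s)))) : Mt (dd i))) := by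
    intro s
    refine AE.symm' ?_
    rw [← ht]
    refine (as_mul hφ _ _).trans' ?_
    have h3 : AE F (fun i => (φ i (t⁻¹ * ι (γ (FreeGroup.of s))) : Mt (dd i)))
        (fun i => star (φ i t : Mt (dd i)) * (u i s : Mt (dd i))) := by
      refine (as_mul hφ _ _).trans' ?_
      exact (as_inv hφ t).mul' (AE.rfl' _) (fun i => nrm_uni _)
        (fun i => nrm_uni ((φ i t)⁻¹))
    exact h3.mul' (AE.rfl' _) (fun i => nrm_uni _) (fun i => nrm_uni ((φ i t)⁻¹ * u i s))
  choose ws hws using fun s : Fin k => hγ (Φ (γ (FreeGroup.of s)))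
  have hWU : ∀ s, AE F (fun i => (W i s : Mt (dd i)))
      (fun i => ((FreeGroup.lift (u i) (ws s) : Matrix.unitaryGroup (Fin (dd i)) ℂ) :
        Mt (dd i))) := by
    intro s
    refine (hWP s).trans' ?_
    have h3 := (hF1 (ws s)).symm'
    rw [hws s] at h3
    exact h3
  have hy1 : ∀ i, ‖vc (y i)‖ ≤ 1 := by
    intro i
    have h3 := hy i
    rw [hs_eq_norm] at h3
    nlinarith [norm_nonneg (vc (y i))]
  -- the energy of the conjugated vector tends to zero
  have hen0 : Tendsto (fun i => en (fun s => (u i s : Mt (dd i)))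
      ((φ i t : Mt (dd i)) * y i * (φ i t : Mt (dd i))ᴴ)) F (𝓝 0) := by
    have h3 : ∀ s, Tendsto (fun i => cm (W i s : Mt (dd i)) (y i) ^ 2) F (𝓝 0) := by
      intro s
      have h4 : Tendsto (fun i => cm (φ i (ι (Φ (γ (FreeGroup.of s)))) : Mt (dd i)) (y i)) F
          (𝓝 0) := by
        have h5 := (hcm (γ (FreeGroup.of s))).sqrt
        rw [Real.sqrt_zero] at h5
        refine h5.congr fun i => ?_
        rw [sqrt_hs]
        rfl
      have h5 : Tendsto (fun i => cm (W i s : Mt (dd i)) (y i)) F (𝓝 0) := by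
        refine squeeze_zero (fun i => cm_nonneg _ _) (fun i => ?_) (by
          simpa using h4.add ((hWP s).const_mul 2))
        refine (cm_le _ (φ i (ι (Φ (γ (FreeGroup.of s)))) : Mt (dd i)) _).trans ?_
        refine add_le_add le_rfl ?_
        exact mul_le_of_le_one_right (by positivity) (hy1 i)
      simpa using h5.pow 2
    have h4 := tendsto_finsetSum (Finset.univ : Finset (Fin k)) fun s _ => h3 s
    rw [Finset.sum_const_zero] at h4
    refine h4.congr fun i => ?_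
    rw [en_conj_uni]
  -- the claim
  have hclaim : ∀ ε : ℝ, 0 < ε → ∃ ω : ℝ, 0 < ω ∧ ∀ᶠ i in F, ∀ x : Mt (dd i),
      en (fun s => (u i s : Mt (dd i))) x ≤ ω * hs x →
      en (fun s => (u i s : Mt (dd i))) ((φ i t : Mt (dd i)) * x * (φ i t : Mt (dd i))ᴴ) ≤
        ε * hs x := by
    intro ε hε
    choose L hL0 hL using fun s : Fin k => word (ws s)
    set c : ℝ := √(ε / (k + 1)) with hc
    have hc0 : 0 < c := by positivity
    set LL : ℝ := ∑ s, L s with hLL
    have hLL0 : 0 ≤ LL := Finset.sum_nonneg fun s _ => hL0 s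
    have hLs : ∀ s, L s ≤ LL := fun s =>
      Finset.single_le_sum (f := L) (fun s _ => hL0 s) (Finset.mem_univ s)
    refine ⟨(c / (2 * (LL + 1))) ^ 2, by positivity, ?_⟩
    have hev : ∀ᶠ i in F, ∀ s, ‖(W i s : Mt (dd i)) -
        ((FreeGroup.lift (u i) (ws s) : Matrix.unitaryGroup (Fin (dd i)) ℂ) : Mt (dd i))‖ <
          c / 4 := by
      rw [Filter.eventually_all]
      intro s
      exact (hWU s).eventually_lt_const (by positivity)
    filter_upwards [hev] with i hi x hx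
    rw [en_conj_uni]
    have h3 : ∀ s, cm (W i s : Mt (dd i)) x ≤ c * ‖vc x‖ := by
      intro s
      refine (cm_le _ ((FreeGroup.lift (u i) (ws s) : Matrix.unitaryGroup (Fin (dd i)) ℂ) :
        Mt (dd i)) x).trans ?_
      have h4 := hL s (dd i) (u i) x
      have h5 : √(en (fun s => (u i s : Mt (dd i))) x) ≤ c / (2 * (LL + 1)) * ‖vc x‖ := by
        refine Real.sqrt_le_iff.2 ⟨by positivity, ?_⟩
        rw [mul_pow, ← hs_eq_norm]
        exact hx
      have h6 : L s * √(en (fun s => (u i s : Mt (dd i))) x) ≤ c / 2 * ‖vc x‖ := by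
        calc L s * √(en (fun s => (u i s : Mt (dd i))) x)
            ≤ LL * (c / (2 * (LL + 1)) * ‖vc x‖) :=
              mul_le_mul (hLs s) h5 (Real.sqrt_nonneg _) hLL0
          _ = (LL / (LL + 1)) * (c / 2 * ‖vc x‖) := by field_simp
          _ ≤ 1 * (c / 2 * ‖vc x‖) := by
              refine mul_le_mul_of_nonneg_right ?_ (by positivity)
              rw [div_le_one (by positivity)]
              linarith
          _ = c / 2 * ‖vc x‖ := one_mul _
      have h7 := mul_le_mul_of_nonneg_right (hi s).le (norm_nonneg (vc x))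
      linarith
    calc ∑ s, cm (W i s : Mt (dd i)) x ^ 2 ≤ ∑ _s : Fin k, (c * ‖vc x‖) ^ 2 :=
          Finset.sum_le_sum fun s _ => pow_le_pow_left₀ (cm_nonneg _ _) (h3 s) 2
      _ = k * (ε / (k + 1)) * hs x := by
          rw [Finset.sum_const, Finset.card_univ, Fintype.card_fin, nsmul_eq_mul, mul_pow,
            ← hs_eq_norm, hc, Real.sq_sqrt (by positivity), mul_assoc]
      _ ≤ ε * hs x := by
          refine mul_le_mul_of_nonneg_right ?_ (hs_nonneg _)
          rw [mul_div_assoc', div_le_iff₀ (by positivity)]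
          nlinarith
  -- the energy of `y` tends to zero
  have hen : Tendsto (fun i => en (fun s => (u i s : Mt (dd i))) (y i)) F (𝓝 0) := by
    rw [Metric.tendsto_nhds]
    intro e he
    set ε : ℝ := min κ (e / (2 * (A + 1))) with hε
    have hε0 : 0 < ε := lt_min hκ (by positivity)
    obtain ⟨ω, hω, hev⟩ := hclaim ε hε0
    obtain ⟨θ, hθ, hkey'⟩ := hkey ε ω hε0 (min_le_left _ _) hω
    obtain ⟨δ, hδ, R, hR, hgap'⟩ := hgap θ hθ
    have hRev : ∀ᶠ i in F, ∀ w ∈ R, opn (((FreeGroup.lift (u i) w :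
        Matrix.unitaryGroup (Fin (dd i)) ℂ) : Mt (dd i)) - 1) ≤ δ := by
      rw [Filter.eventually_all_finset]
      intro w hw
      have h3 := hF1 w
      rw [hR w hw, map_one] at h3
      have h4 := h3.trans' (as_one hφ)
      filter_upwards [h4.eventually_lt_const hδ] with i hi
      exact hi.le
    have hAev : ∀ᶠ i in F, A * en (fun s => (u i s : Mt (dd i)))
        ((φ i t : Mt (dd i)) * y i * (φ i t : Mt (dd i))ᴴ) < e / 2 := by
      have h3 := hen0.const_mul A
      rw [mul_zero] at h3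
      exact h3.eventually_lt_const (by positivity)
    filter_upwards [hev, hRev, hAev] with i hi hRi hAi
    have hGp := (hgap' (dd i) (u i) hRi).2
    have h3 := hkey' _ (cf (u i)) (rp (φ i t)) hGp ?_ (vc (y i))
    · rw [dsp_vc, rp_vc, dsp_vc, ← hs_eq_norm] at h3
      have h4 : 0 ≤ en (fun s => (u i s : Mt (dd i))) (y i) := en_nonneg _ _
      rw [Real.dist_eq, sub_zero, abs_of_nonneg h4]
      have h5 : A * ε * hs (y i) ≤ A * ε := mul_le_of_le_one_right (by positivity) (hy i)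
      have h6 : A * ε ≤ A * (e / (2 * (A + 1))) := mul_le_mul_of_nonneg_left (min_le_right _ _) hA
      have h7 : A * (e / (2 * (A + 1))) ≤ e / 2 := by
        rw [mul_div_assoc', div_le_div_iff₀ (by positivity) (by positivity)]
        nlinarith
      linarith
    · intro v hv
      obtain ⟨x, rfl⟩ := vle.surjective v
      change Dsp (cf (u i)) (vc x) ≤ ω * ‖vc x‖ ^ 2 at hv
      change Dsp (cf (u i)) ((rp (φ i t) : _ →L[ℂ] _) (vc x)) ≤ ε * ‖vc x‖ ^ 2
      rw [dsp_vc, ← hs_eq_norm] at hv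
      rw [rp_vc, dsp_vc, ← hs_eq_norm]
      exact hi x hv
  -- conclusion
  intro x
  obtain ⟨w, rfl⟩ := hγ x
  obtain ⟨L, hL0, hL⟩ := word w
  have h3 : Tendsto (fun i => cm (φ i (ι (γ w)) : Mt (dd i)) (y i)) F (𝓝 0) := by
    have h4 := hen.sqrt
    rw [Real.sqrt_zero] at h4
    refine squeeze_zero (fun i => cm_nonneg _ _) (fun i => ?_) (by
      simpa using (h4.const_mul L).add ((hF1 w).symm'.const_mul 2))
    refine (cm_le _ ((FreeGroup.lift (u i) w : Matrix.unitaryGroup (Fin (dd i)) ℂ) :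
      Mt (dd i)) _).trans ?_
    refine add_le_add (hL (dd i) (u i) (y i)) ?_
    exact mul_le_of_le_one_right (by positivity) (hy1 i)
  have h4 := h3.pow 2
  rw [zero_pow two_ne_zero] at h4
  refine h4.congr fun i => ?_
  rw [cm_sq]

end

end Pool.Agent.N717.MS
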