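import Pool.Agent.N717.MS.LineB
import Pool.Agent.W540.GM.Ang1

/-!
# Project MS, part MS1: exponential sums with the phases `k arg z - l log N z`

Part 2: the sum over the disc (port of `W540/GM/AngE`, `W540/GM/Ang1`). (helper717, for helper912)
-/

set_option autoImplicit false

namespace Pool.Agent.N717.MS

open Finset Complex
open Pool.Agent.W78.GM
open Pool.Agent.W540.GM (Good cl cell_re cell_good cell_bound lconv_cl sum_ball_eq abs_ediv_le
  ball_eq_empty card_ball_le)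
open GaussianInt (toComplex)

lemma sum_ball_leH {Y : ℝ} (hY : 0 ≤ Y) (κ : ℤ × ℤ) : ‖∑ z ∈ ball Y, HH κ z‖ ≤ 9 * Y := by
  refine (norm_sum_le _ _).trans ?_
  refine (sum_le_sum fun z _ => norm_HH_le κ z).trans ?_
  rw [sum_const, nsmul_eq_mul, mul_one]
  exact card_ball_le hY

/-- the bound for one cell -/
lemma cell_diff {T : ℕ} (hT : 1 ≤ T) {Y : ℝ} (hY : 0 < Y) {S : ℕ} (hS : 1 ≤ S)
    (hS1 : Real.sqrt Y / (40960 * T ^ 2) / 2 ≤ (S : ℝ))
    (hS2 : (S : ℝ) ≤ Real.sqrt Y / (40960 * T ^ 2)) {κ : ℤ × ℤ} {b : ℝ} (hb : 0 ≤ b)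
    (hline : ∀ (z₀ u : GaussianInt) (L : ℕ), L ≤ 2 * S → u ≠ 0 →
      Good T (1 / (40960 * T ^ 2 * 32)) (6 / (32 * T + 2)) ((2 * S : ℕ) : ℝ) (toComplex z₀)
        (toComplex u) → ‖∑ n ∈ range L, HH κ (z₀ + (n : GaussianInt) * u)‖ ≤ b) (p : ℤ × ℤ) :
    ‖∑ z ∈ cl S Y p, HH κ z - ∑ z ∈ cl S (Y / 4) p, HH κ z‖ ≤ 2 * ((256 * T * S + 1 : ℕ) * b) := by
  have hT' : (1 : ℝ) ≤ T := by exact_mod_cast hT
  have hr0 : 0 < Real.sqrt Y := Real.sqrt_pos.2 hY
  have hr2 : Real.sqrt Y ^ 2 = Y := Real.sq_sqrt hY.le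
  by_cases hcase : ∃ zQ : GaussianInt, (zQ.re / (S : ℤ), zQ.im / (S : ℤ)) = p ∧
      Y / 4 < (nm zQ : ℝ) ∧ (nm zQ : ℝ) ≤ 4 * Y
  · obtain ⟨zQ, hQp, hQ1, hQ2⟩ := hcase
    have hQn1 : Real.sqrt Y / 2 ≤ ‖toComplex zQ‖ := by
      rw [norm_toComplex]
      apply Real.le_sqrt_of_sq_le
      rw [div_pow, hr2]
      linarith
    have hQn2 : ‖toComplex zQ‖ ≤ 2 * Real.sqrt Y := by
      rw [norm_toComplex]
      rw [Real.sqrt_le_left (by positivity), mul_pow, hr2]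
      linarith
    obtain ⟨u, hu, hun, hgood⟩ := cell_good T hT (Real.sqrt Y) S hS hS1 hS2 zQ hQn1 hQn2
    have hQp' := Prod.ext_iff.1 hQp
    simp only at hQp'
    -- the cell does not contain the origin
    have h0 : ¬ ((0 : ℤ) / (S : ℤ), (0 : ℤ) / (S : ℤ)) = p := by
      intro h
      have h' := Prod.ext_iff.1 h
      simp only at h'
      have h1 := cell_re hS hQp'.1 h'.1
      have h2 := cell_re hS hQp'.2 h'.2
      rw [sub_zero] at h1 h2
      have h3 : (nm zQ : ℝ) ≤ 2 * (S : ℝ) ^ 2 := by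
        rw [nm_castR]
        have h4 : |(zQ.re : ℝ)| ≤ S := by exact_mod_cast h1.le
        have h5 : |(zQ.im : ℝ)| ≤ S := by exact_mod_cast h2.le
        have h6 := sq_le_sq' (abs_le.1 h4).1 (abs_le.1 h4).2
        have h7 := sq_le_sq' (abs_le.1 h5).1 (abs_le.1 h5).2
        linarith
      have h8 : (S : ℝ) * 4 ≤ Real.sqrt Y := by
        rw [le_div_iff₀ (by positivity)] at hS2
        have h9 : (4 : ℝ) ≤ 40960 * T ^ 2 := by nlinarith
        have h10 : (0 : ℝ) ≤ S := Nat.cast_nonneg S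
        nlinarith
      have h9 : ((S : ℝ) * 4) ^ 2 ≤ Y := by
        rw [← hr2]
        have h10 : (0 : ℝ) ≤ S := Nat.cast_nonneg S
        gcongr
      nlinarith
    have key : ∀ Y' : ℝ, ‖∑ z ∈ cl S Y' p, HH κ z‖ ≤ (256 * T * S + 1 : ℕ) * b := by
      intro Y'
      have hin : ∀ z ∈ cl S Y' p, |z.re - zQ.re| < S ∧ |z.im - zQ.im| < S := by
        intro z hz
        have h1 := Prod.ext_iff.1 (mem_filter.1 hz).2
        simp only at h1
        exact ⟨cell_re hS h1.1 hQp'.1, cell_re hS h1.2 hQp'.2⟩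
      refine cell_bound hu hun (lconv_cl hS Y' p h0) hin hb ?_
      intro z₀ hz₀ L hL
      obtain ⟨h1, h2⟩ := hin z₀ hz₀
      exact hline z₀ u L hL (prim_ne_zero hu) (hgood z₀ h1 h2)
    refine (norm_sub_le _ _).trans ?_
    have h1 := key Y
    have h2 := key (Y / 4)
    linarith
  · push Not at hcase
    have heq : cl S Y p = cl S (Y / 4) p := by
      ext z
      unfold cl
      rw [mem_filter, mem_filter, mem_ball, mem_ball]
      constructor
      · rintro ⟨⟨h1, h2⟩, h3⟩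
        refine ⟨⟨h1, ?_⟩, h3⟩
        by_contra hcon
        push Not at hcon
        have := hcase z h3 hcon
        linarith
      · rintro ⟨⟨h1, h2⟩, h3⟩
        exact ⟨⟨h1, by linarith⟩, h3⟩
    rw [heq, sub_self, norm_zero]
    positivity

/-- the annulus `Y/4 < nm z ≤ Y`, `Y` large -/
lemma annulus_large (M : ℕ) : ∃ η : ℝ, 0 < η ∧ η ≤ 1 ∧ ∃ C : ℝ, 0 < C ∧ ∃ R : ℝ, 1 ≤ R ∧
    ∀ (Y : ℝ) (κ : ℤ × ℤ), κ.1 * κ.2 ≤ 0 → R ≤ Real.sqrt Y → 7 ≤ sz κ → sz κ ≤ Y ^ M →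
      ‖∑ z ∈ ball Y, HH κ z - ∑ z ∈ ball (Y / 4), HH κ z‖ ≤
        C * (Y ^ (1 - η / 2) + Y / sz κ) := by
  set T : ℕ := 4 * M + 4 with hT
  have hT1 : 1 ≤ T := by omega
  have hT' : (1 : ℝ) ≤ T := by exact_mod_cast hT1
  set R₀ : ℝ := 40960 * T ^ 2 with hR₀
  have hR₀1 : 1 ≤ R₀ := by rw [hR₀]; nlinarith
  obtain ⟨η, hη, hη1, C, hC, hline⟩ := line_bound2 (4 * M) (x₀ := 1 / (40960 * T ^ 2 * 32))
    (τ₀ := 6 / (32 * T + 2)) (by positivity)
    (by rw [div_le_one (by positivity)]; nlinarith) (by positivity)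
  rw [← hT] at hline
  set A : ℕ := ⌈2 * R₀⌉₊ + 1 with hA
  have hA0 : 2 * R₀ + 1 ≤ (A : ℝ) := by
    rw [hA]; push_cast
    linarith [Nat.le_ceil (2 * R₀)]
  refine ⟨η, hη, hη1, ((2 * A + 1 : ℕ) : ℝ) ^ 2 * (2 * (257 * T * (C * 2))), by positivity,
    R₀ ^ 2, one_le_pow₀ hR₀1, ?_⟩
  intro Y κ hs hY hk7 hkM
  set r : ℝ := Real.sqrt Y with hr
  have hr1 : R₀ ≤ r := by
    refine le_trans ?_ hY
    nlinarith
  have hr1' : 1 ≤ r := hR₀1.trans hr1
  have hY0 : 0 < Y := by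
    by_contra hcon
    push Not at hcon
    rw [hr, Real.sqrt_eq_zero_of_nonpos hcon] at hr1'
    linarith
  have hr2 : r ^ 2 = Y := Real.sq_sqrt hY0.le
  set S : ℕ := ⌊r / R₀⌋₊ with hS
  have hy1 : 1 ≤ r / R₀ := by rw [le_div_iff₀ (by linarith)]; linarith
  have hS1 : 1 ≤ S := Nat.le_floor (by exact_mod_cast hy1)
  have hSle : (S : ℝ) ≤ r / R₀ := Nat.floor_le (by positivity)
  have hSge : r / R₀ / 2 ≤ (S : ℝ) := by
    have h1 : (1 : ℝ) ≤ S := by exact_mod_cast hS1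
    have h2 := Nat.lt_floor_add_one (r / R₀)
    rw [← hS] at h2
    linarith
  have hS0 : (0 : ℝ) < S := by exact_mod_cast hS1
  have hSr : (S : ℝ) ≤ r := hSle.trans (div_le_self (by linarith) hR₀1)
  have hk0 : 0 < sz κ := by linarith
  -- `|k| ≤ J ^ (4 M)`
  have hJ : sz κ ≤ ((2 * S : ℕ) : ℝ) ^ (4 * M) := by
    have h1 : r / R₀ ≤ ((2 * S : ℕ) : ℝ) := by push_cast; linarith
    have h2 : r ≤ (r / R₀) ^ 2 := by
      rw [div_pow, le_div_iff₀ (by positivity)]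
      nlinarith
    calc sz κ ≤ Y ^ M := hkM
      _ = r ^ (2 * M) := by rw [← hr2, ← pow_mul]
      _ ≤ ((r / R₀) ^ 2) ^ (2 * M) := by gcongr
      _ = (r / R₀) ^ (4 * M) := by rw [← pow_mul]; congr 1; ring
      _ ≤ _ := by gcongr
  set b : ℝ := C * (((2 * S : ℕ) : ℝ) ^ (1 - η) + ((2 * S : ℕ) : ℝ) / sz κ) with hb
  have hb0 : 0 ≤ b := by positivity
  have hcell := cell_diff hT1 hY0 hS1 hSge hSle (κ := κ) hb0 (by
    intro z₀ u L hL hu hgood
    exact hline (2 * S) L z₀ u κ hs (by omega) hL hu hgood hk7 hJ)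
  have hidx : ∀ z ∈ ball Y, |z.re / (S : ℤ)| ≤ A ∧ |z.im / (S : ℤ)| ≤ A := by
    intro z hz
    rw [mem_ball] at hz
    have h1 : r + S ≤ A * S := by
      have h2 : r ≤ 2 * R₀ * S := by
        have h3 : r / R₀ ≤ 2 * S := by linarith
        rw [div_le_iff₀ (by linarith)] at h3
        linarith
      nlinarith
    have h5 := nm_castR z
    refine ⟨abs_ediv_le hS1 (Real.abs_le_sqrt ?_) h1, abs_ediv_le hS1 (Real.abs_le_sqrt ?_) h1⟩
    · nlinarith [sq_nonneg (z.im : ℝ), hz.2]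
    · nlinarith [sq_nonneg (z.re : ℝ), hz.2]
  have hidx' : ∀ z ∈ ball (Y / 4), |z.re / (S : ℤ)| ≤ A ∧ |z.im / (S : ℤ)| ≤ A := by
    intro z hz
    apply hidx
    rw [mem_ball] at hz ⊢
    exact ⟨hz.1, by linarith [hz.2]⟩
  rw [sum_ball_eq hidx, sum_ball_eq hidx', ← sum_sub_distrib]
  refine (norm_sum_le _ _).trans ?_
  refine (sum_le_sum fun p _ => hcell p).trans ?_
  rw [sum_const, nsmul_eq_mul]
  have hcard : ((Icc (-(A : ℤ)) A) ×ˢ (Icc (-(A : ℤ)) A)).card = (2 * A + 1) ^ 2 := by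
    rw [card_product, Int.card_Icc, sq]
    congr 1 <;> omega
  rw [hcard]
  push_cast
  rw [mul_assoc ((2 * (A : ℝ) + 1) ^ 2)]
  apply mul_le_mul_of_nonneg_left _ (by positivity)
  rw [mul_assoc (2 : ℝ)]
  apply mul_le_mul_of_nonneg_left _ (by positivity)
  -- the bound for `b`
  have hb1 : b ≤ C * 2 * (r ^ (1 - η) + r / sz κ) := by
    rw [hb, mul_assoc C 2]
    apply mul_le_mul_of_nonneg_left _ hC.le
    push_cast
    rw [mul_add]
    apply add_le_add
    · calc (2 * (S : ℝ)) ^ (1 - η) ≤ (2 * r) ^ (1 - η) := by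
            apply Real.rpow_le_rpow (by positivity) (by linarith) (by linarith)
        _ = 2 ^ (1 - η) * r ^ (1 - η) := Real.mul_rpow (by norm_num) (by linarith)
        _ ≤ 2 * r ^ (1 - η) := by
            apply mul_le_mul_of_nonneg_right _ (by positivity)
            calc (2 : ℝ) ^ (1 - η) ≤ 2 ^ (1 : ℝ) := by
                  apply Real.rpow_le_rpow_of_exponent_le (by norm_num) (by linarith)
              _ = 2 := Real.rpow_one 2
    · rw [mul_div_assoc]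
      gcongr
  have h1 : (256 * (T : ℝ) * S + 1) ≤ 257 * T * r := by nlinarith
  calc (256 * (T : ℝ) * S + 1) * b ≤ (257 * T * r) * (C * 2 * (r ^ (1 - η) + r / sz κ)) := by
        gcongr
    _ = 257 * T * (C * 2) * (r * r ^ (1 - η) + r ^ 2 / sz κ) := by ring
    _ = _ := by
        have h2 : r * r ^ (1 - η) = Y ^ (1 - η / 2) := by
          rw [← Real.rpow_one_add' (by linarith) (by linarith), hr, Real.sqrt_eq_rpow,
            ← Real.rpow_mul hY0.le]
          congr 1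
          ring
        rw [h2, hr2]

/-- the annulus `Y/4 < nm z ≤ Y` -/
lemma annulus (M : ℕ) : ∃ η : ℝ, 0 < η ∧ η ≤ 1 / 2 ∧ ∃ C : ℝ, 0 < C ∧
    ∀ (Y : ℝ) (κ : ℤ × ℤ), κ.1 * κ.2 ≤ 0 → 1 ≤ Y → 0 < sz κ → sz κ ≤ Y ^ M →
      ‖∑ z ∈ ball Y, HH κ z - ∑ z ∈ ball (Y / 4), HH κ z‖ ≤
        C * (Y ^ (1 - η) + Y / sz κ) := by
  obtain ⟨η, hη, hη1, C, hC, R, hR, h⟩ := annulus_large M
  refine ⟨η / 2, by positivity, by linarith, C + 18 * 7 + 18 * R ^ 2, by positivity, ?_⟩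
  intro Y κ hs hY hk0 hkM
  have hY0 : 0 < Y := by linarith
  have hp1 : 0 ≤ Y ^ (1 - η / 2) := by positivity
  have hp1' : 1 ≤ Y ^ (1 - η / 2) := Real.one_le_rpow hY (by linarith)
  have hp2 : 0 ≤ Y / sz κ := by positivity
  have htriv : ‖∑ z ∈ ball Y, HH κ z - ∑ z ∈ ball (Y / 4), HH κ z‖ ≤ 18 * Y := by
    refine (norm_sub_le _ _).trans ?_
    have h1 := sum_ball_leH hY0.le κ
    have h2 := sum_ball_leH (by positivity : 0 ≤ Y / 4) κ
    linarith
  by_cases hc1 : 7 ≤ sz κ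
  · by_cases hc2 : R ≤ Real.sqrt Y
    · refine (h Y κ hs hc2 hc1 hkM).trans ?_
      apply mul_le_mul_of_nonneg_right _ (by positivity)
      nlinarith
    · push Not at hc2
      have h3 : Y ≤ R ^ 2 := by
        have : Real.sqrt Y ^ 2 ≤ R ^ 2 := by gcongr
        rwa [Real.sq_sqrt hY0.le] at this
      refine htriv.trans ?_
      calc 18 * Y ≤ 18 * R ^ 2 * (Y ^ (1 - η / 2) + Y / sz κ) := by
            have h4 : (1 : ℝ) ≤ Y ^ (1 - η / 2) + Y / sz κ := by linarith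
            have h5 : (0 : ℝ) ≤ 18 * R ^ 2 := by positivity
            nlinarith
        _ ≤ _ := by
            apply mul_le_mul_of_nonneg_right _ (by positivity)
            linarith
  · push Not at hc1
    refine htriv.trans ?_
    have h4 : Y ≤ 7 * (Y / sz κ) := by
      rw [← mul_div_assoc, le_div_iff₀ hk0]
      nlinarith
    calc 18 * Y ≤ (18 * 7) * (Y ^ (1 - η / 2) + Y / sz κ) := by linarith
      _ ≤ _ := by
          apply mul_le_mul_of_nonneg_right _ (by positivity)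
          nlinarith

/-- **Exponential sums, van der Corput part.** -/
theorem vdc1 (M : ℕ) : ∃ η : ℝ, 0 < η ∧ η ≤ 1 / 2 ∧ ∃ C : ℝ, 0 < C ∧ ∀ (X : ℝ) (κ : ℤ × ℤ),
    κ.1 * κ.2 ≤ 0 → 1 ≤ X → 0 < sz κ → sz κ ≤ X ^ M →
      ‖∑ z ∈ ball X, HH κ z‖ ≤ C * (X ^ (1 - η) + X / sz κ) := by
  obtain ⟨η, hη, hη1, C, hC, h⟩ := annulus (2 * M)
  refine ⟨η, hη, hη1, 2 * C + 9, by positivity, ?_⟩
  intro X κ hs hX hk0 hkM
  have hX0 : 0 < X := by linarith
  have key : ∀ (n : ℕ) (Y : ℝ), 1 ≤ Y → Y ≤ X → Y ≤ 4 ^ n →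
      ‖∑ z ∈ ball Y, HH κ z‖ ≤ 9 * Real.sqrt X + 2 * C * (Y ^ (1 - η) + Y / sz κ) := by
    intro n
    induction n with
    | zero =>
      intro Y hY _ h1
      have hY0 : 0 < Y := by linarith
      have h2 := sum_ball_leH hY0.le κ
      have h3 : 1 ≤ Real.sqrt X := by rw [Real.one_le_sqrt]; exact hX
      have h4 : 0 ≤ 2 * C * (Y ^ (1 - η) + Y / sz κ) := by positivity
      have h5 : Y ≤ 1 := by simpa using h1
      linarith
    | succ n ih =>
      intro Y hY hYX h1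
      have hY0 : 0 < Y := by linarith
      have h4 : 0 ≤ 2 * C * (Y ^ (1 - η) + Y / sz κ) := by positivity
      by_cases hc : Y ≤ Real.sqrt X
      · have h2 := sum_ball_leH hY0.le κ
        linarith
      · push Not at hc
        have hXY : X ≤ Y ^ 2 := by
          have h5 : Real.sqrt X ^ 2 ≤ Y ^ 2 := by gcongr
          rwa [Real.sq_sqrt hX0.le] at h5
        have hkY : sz κ ≤ Y ^ (2 * M) := by
          rw [pow_mul]
          exact hkM.trans (by gcongr)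
        have h6 := h Y κ hs hY hk0 hkY
        have h7 : ‖∑ z ∈ ball (Y / 4), HH κ z‖ ≤ 9 * Real.sqrt X +
            2 * C * ((Y / 4) ^ (1 - η) + (Y / 4) / sz κ) := by
          by_cases hc4 : 1 ≤ Y / 4
          · exact ih (Y / 4) hc4 (by linarith) (by rw [pow_succ] at h1; linarith)
          · push Not at hc4
            rw [ball_eq_empty hc4, sum_empty, norm_zero]
            positivity
        have h8 : (Y / 4) ^ (1 - η) ≤ Y ^ (1 - η) / 2 := by
          rw [Real.div_rpow hY0.le (by norm_num)]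
          apply div_le_div_of_nonneg_left (by positivity) (by norm_num)
          calc (2 : ℝ) = 4 ^ (1 / 2 : ℝ) := by
                rw [← Real.sqrt_eq_rpow, show (4 : ℝ) = 2 ^ 2 by norm_num,
                  Real.sqrt_sq (by norm_num)]
            _ ≤ 4 ^ (1 - η) := by
                apply Real.rpow_le_rpow_of_exponent_le (by norm_num) (by linarith)
        have h9 : ‖∑ z ∈ ball Y, HH κ z‖ ≤
            ‖∑ z ∈ ball Y, HH κ z - ∑ z ∈ ball (Y / 4), HH κ z‖ +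
              ‖∑ z ∈ ball (Y / 4), HH κ z‖ := by
          have := norm_add_le (∑ z ∈ ball Y, HH κ z - ∑ z ∈ ball (Y / 4), HH κ z)
            (∑ z ∈ ball (Y / 4), HH κ z)
          rwa [sub_add_cancel] at this
        have h10 : (Y / 4) / sz κ ≤ (Y / sz κ) / 2 := by
          rw [div_right_comm]
          have : 0 ≤ Y / sz κ := by positivity
          linarith
        have h11 : 2 * C * ((Y / 4) ^ (1 - η) + (Y / 4) / sz κ) ≤
            2 * C * (Y ^ (1 - η) / 2 + (Y / sz κ) / 2) := by gcongr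
        have h12 : 2 * C * (Y ^ (1 - η) / 2 + (Y / sz κ) / 2) +
            C * (Y ^ (1 - η) + Y / sz κ) = 2 * C * (Y ^ (1 - η) + Y / sz κ) := by ring
        linarith
  obtain ⟨n, hn⟩ := pow_unbounded_of_one_lt X (by norm_num : (1 : ℝ) < 4)
  refine (key n X hX le_rfl hn.le).trans ?_
  have h1 : Real.sqrt X ≤ X ^ (1 - η) := by
    rw [Real.sqrt_eq_rpow]
    apply Real.rpow_le_rpow_of_exponent_le hX (by linarith)
  have h2 : 0 ≤ X / sz κ := by positivity
  calc 9 * Real.sqrt X + 2 * C * (X ^ (1 - η) + X / sz κ)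
      ≤ 9 * (X ^ (1 - η) + X / sz κ) + 2 * C * (X ^ (1 - η) + X / sz κ) := by
        gcongr
        linarith
    _ = _ := by ring

end Pool.Agent.N717.MS
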